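import Pool.Agent.Y675.CL.Sieve

set_option autoImplicit false

/-!
# Bounded windows with congruent numbers of all classes
-/

namespace Pool.Agent.Y675.CL

open Polynomial Pool.Agent.TH464.PW Finset Filter

/-- the congruent numbers of the window -/
def Wn (n C R j : ℕ) (z : ℝ) : Set ℕ :=
  {d : ℕ | n ≤ d ∧ d ≤ n + C ∧ d % 8 = j ∧ Squarefree d ∧ Cong d ∧ d.primeFactors.card ≤ R ∧
    ∀ p : ℕ, p.Prime → p ∣ d → p = 2 ∨ z < p}

lemma Wn_finite (n C R j : ℕ) (z : ℝ) : (Wn n C R j z).Finite :=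
  (Set.finite_Iic (n + C)).subset fun _ hd => hd.2.1

lemma dd_strict (t k l : ℕ) (hkl : k < l) (hl : l < t) (h1 : 16 ∣ t ^ 4 - k ^ 4)
    (h2 : 16 ∣ t ^ 4 - l ^ 4) : dd t l < dd t k := by
  unfold dd
  have h3 : k ^ 4 < l ^ 4 := Nat.pow_lt_pow_left hkl (by norm_num)
  have h4 : l ^ 4 < t ^ 4 := Nat.pow_lt_pow_left hl (by norm_num)
  omega

/-- the number of congruent numbers in a window -/
lemma window (r R' : ℕ) (z : ℝ) (hz : 5 ≤ z) (s : ℕ) (hs : KK r < s) (hA : Almost (ff r) R' z s)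
    (hsq : ∀ x, ∀ p : ℕ, p.Prime → ¬ (p : ℤ) ^ 2 ∣ (ff r x).eval (s : ℤ)) (a : Fin 6) (z' : ℝ)
    (hz' : z' ≤ z) (R : ℕ) (hR : 3 * R' + 1 ≤ R) :
    r ≤ (Wn ((480 * s + 1) ^ 4 / 16 - KK r ^ 4) (KK r ^ 4) R (jj a) z').ncard := by
  have hlt : ∀ i : Fin (r + 1), kk a i < 480 * s + 1 := fun i => by
    have := kk_le r a i
    omega
  have hK : KK r ^ 4 ≤ (480 * s + 1) ^ 4 / 16 := by
    rw [Nat.le_div_iff_mul_le (by norm_num)]
    have h1 : KK r ^ 4 * 16 ≤ (480 * s + 1) ^ 4 := by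
      have h2 : (2 * KK r) ^ 4 ≤ (480 * s + 1) ^ 4 := Nat.pow_le_pow_left (by omega) 4
      have h3 : (2 * KK r) ^ 4 = KK r ^ 4 * 16 := by ring
      omega
    exact h1
  have hmaps : ∀ i : Fin (r + 1), dd (480 * s + 1) (kk a i) ∈
      Wn ((480 * s + 1) ^ 4 / 16 - KK r ^ 4) (KK r ^ 4) R (jj a) z' := by
    intro i
    obtain ⟨h1, h2, h3, h4, h5⟩ := good r R' z hz a i s (hlt i) hA (fun y => hsq (a, i, y))
    refine ⟨?_, ?_, h1, h2, h3, h4.trans hR, fun p hp hd => (h5 p hp hd).imp id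
      (fun h => lt_of_le_of_lt hz' h)⟩
    · unfold dd
      have h6 : kk a i ^ 4 ≤ KK r ^ 4 := Nat.pow_le_pow_left (kk_le r a i) 4
      have h7 : (480 * s + 1) ^ 4 / 16 ≤ ((480 * s + 1) ^ 4 - kk a i ^ 4) / 16 + KK r ^ 4 := by
        omega
      omega
    · have h8 : dd (480 * s + 1) (kk a i) ≤ (480 * s + 1) ^ 4 / 16 := by
        unfold dd
        exact Nat.div_le_div_right (Nat.sub_le _ _)
      omega
  have h16 : ∀ i : Fin (r + 1), 16 ∣ (480 * s + 1) ^ 4 - kk a i ^ 4 := by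
    intro i
    obtain ⟨-, -, -, -, -, -, -, -, -, -, h⟩ := dd_spec r a i s (hlt i)
    have hle : kk a i ^ 4 ≤ (480 * s + 1) ^ 4 := Nat.pow_le_pow_left (hlt i).le 4
    refine ⟨dd (480 * s + 1) (kk a i), ?_⟩
    zify [hle]
    push_cast at h
    linarith
  have hinj : Function.Injective (fun i : Fin (r + 1) => dd (480 * s + 1) (kk a i)) := by
    intro i j hij
    simp only at hij
    rcases lt_trichotomy (kk a i) (kk a j) with h | h | h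
    · have := dd_strict (480 * s + 1) _ _ h (hlt j) (h16 i) (h16 j)
      omega
    · exact Fin.ext (kk_inj a a i j h).2
    · have := dd_strict (480 * s + 1) _ _ h (hlt i) (h16 j) (h16 i)
      omega
  have h1 : (Set.range (fun i : Fin (r + 1) => dd (480 * s + 1) (kk a i))).ncard = r + 1 := by
    rw [← Set.image_univ, Set.ncard_image_of_injective _ hinj, Set.ncard_univ]
    simp
  have h2 : (Set.range (fun i : Fin (r + 1) => dd (480 * s + 1) (kk a i))).ncard ≤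
      (Wn ((480 * s + 1) ^ 4 / 16 - KK r ^ 4) (KK r ^ 4) R (jj a) z').ncard := by
    apply Set.ncard_le_ncard _ (Wn_finite _ _ _ _ _)
    rintro _ ⟨i, rfl⟩
    exact hmaps i
  omega

lemma class_cases (j : ℕ) (hj : j ∈ ({1, 2, 3, 5, 6, 7} : Set ℕ)) : ∃ a : Fin 6, jj a = j := by
  simp only [Set.mem_insert_iff, Set.mem_singleton_iff] at hj
  rcases hj with rfl | rfl | rfl | rfl | rfl | rfl
  · exact ⟨0, rfl⟩
  · exact ⟨1, rfl⟩
  · exact ⟨2, rfl⟩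
  · exact ⟨3, rfl⟩
  · exact ⟨4, rfl⟩
  · exact ⟨5, rfl⟩

/-- **Main theorem.** -/
theorem main (r : ℕ) (θ : ℝ) (hθ : 11 / 12 < θ) (hθ1 : θ ≤ 1) :
    ∃ C R : ℕ, 0 < R ∧ ∃ X₀ : ℝ, ∀ X : ℝ, X₀ ≤ X →
      X ^ (θ - 3 / 4) / Real.log X ^ R ≤
        (({n : ℕ | X ≤ n ∧ (n : ℝ) + C ≤ X + X ^ θ ∧ ∀ j ∈ ({1, 2, 3, 5, 6, 7} : Set ℕ),
          r ≤ (Wn n C R j (X ^ (1 / (R : ℝ)))).ncard}.ncard : ℕ) : ℝ) := by
  obtain ⟨θ', hθ'⟩ : ∃ θ' : ℝ, θ' = ((4 * θ - 3) + 2 / 3) / 2 := ⟨_, rfl⟩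
  have ht1 : 2 / 3 < θ' := by rw [hθ']; linarith
  have ht2 : θ' < 4 * θ - 3 := by rw [hθ']; linarith
  have ht3 : θ' ≤ 1 := by linarith
  obtain ⟨ρ, c, hρ, hc, hev⟩ := count_good r θ' ht1 ht3
  obtain ⟨n, hn⟩ : ∃ n, n = Fintype.card (Fin 6 × Fin (r + 1) × Fin 3) := ⟨_, rfl⟩
  rw [← hn] at hev
  obtain ⟨R, hR⟩ : ∃ R, R = n + 5 * ρ + 2 := ⟨_, rfl⟩
  refine ⟨KK r ^ 4, R, by omega, ?_⟩
  have hρ0 : (0 : ℝ) < ρ := by exact_mod_cast (by omega : 0 < ρ)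
  obtain ⟨S₀, hS₀⟩ := eventually_atTop.1 hev
  -- the powers of `X`
  have E1 : ∀ᶠ X : ℝ in atTop, (480 * (S₀ : ℝ) + 480 * (KK r : ℝ) + 16 * (KK r : ℝ) ^ 4 + 16 + 480 * 5 ^ ρ) ≤
      X ^ (1 / 4 : ℝ) := (tendsto_rpow_atTop (by norm_num)).eventually_ge_atTop _
  have E2 : ∀ᶠ X : ℝ in atTop, (240 : ℝ) ≤ X ^ (1 / 20 : ℝ) :=
    (tendsto_rpow_atTop (by norm_num)).eventually_ge_atTop _
  have E3 : ∀ᶠ X : ℝ in atTop, (10000 : ℝ) ≤ X ^ (θ - 3 / 4 - θ' / 4) :=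
    (tendsto_rpow_atTop (by linarith)).eventually_ge_atTop _
  have E4 : ∀ᶠ X : ℝ in atTop, (10000 : ℝ) ≤ X ^ (θ - 3 / 4) :=
    (tendsto_rpow_atTop (by linarith)).eventually_ge_atTop _
  have E5 : ∀ᶠ X : ℝ in atTop, max 1 (10000 / c) ≤ Real.log X :=
    Real.tendsto_log_atTop.eventually_ge_atTop _
  obtain ⟨X₀, hX₀⟩ := eventually_atTop.1 (((E1.and E2).and (E3.and E4)).and
    (E5.and (eventually_ge_atTop (1 : ℝ))))
  refine ⟨X₀, fun X hX => ?_⟩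
  obtain ⟨⟨⟨e1, e2⟩, e3, e4⟩, e5, hX1⟩ := hX₀ X hX
  have hX0 : 0 < X := by linarith
  obtain ⟨x, hx⟩ : ∃ x : ℝ, x = X ^ (1 / 4 : ℝ) := ⟨_, rfl⟩
  have hx4 : x ^ 4 = X := by
    rw [hx, ← Real.rpow_natCast, ← Real.rpow_mul hX0.le]; norm_num
  have hx3 : x ^ 3 = X ^ (3 / 4 : ℝ) := by
    rw [hx, ← Real.rpow_natCast, ← Real.rpow_mul hX0.le]; norm_num
  rw [← hx] at e1
  have hKK0 : (0 : ℝ) ≤ KK r := Nat.cast_nonneg _
  have hS₀0 : (0 : ℝ) ≤ S₀ := Nat.cast_nonneg _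
  have h5ρ : (0 : ℝ) < 5 ^ ρ := by positivity
  have hKK4 : (0 : ℝ) ≤ (KK r : ℝ) ^ 4 := by positivity
  have hx0 : 0 < x := by linarith
  have hx16 : 16 ≤ x := by linarith
  obtain ⟨S, hS⟩ : ∃ S : ℕ, S = ⌊x / 240⌋₊ + 1 := ⟨_, rfl⟩
  obtain ⟨Y, hY⟩ : ∃ Y : ℕ, Y = ⌊X ^ (θ - 3 / 4) / 5000⌋₊ := ⟨_, rfl⟩
  have hS1 : x / 240 < S := by rw [hS]; push_cast; exact Nat.lt_floor_add_one _
  have hS2 : (S : ℝ) ≤ x / 240 + 1 := by
    rw [hS]; push_cast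
    have := Nat.floor_le (show 0 ≤ x / 240 by positivity)
    linarith
  have hSS : S₀ ≤ S := by
    have : (S₀ : ℝ) < S := by linarith
    exact_mod_cast this.le
  have hKS : KK r < S := by
    have : (KK r : ℝ) < S := by linarith
    exact_mod_cast this
  have hpw0 : 0 < X ^ (θ - 3 / 4) := Real.rpow_pos_of_pos hX0 _
  have hY1 : (Y : ℝ) ≤ X ^ (θ - 3 / 4) / 5000 := by
    rw [hY]; exact Nat.floor_le (by positivity)
  have hY2 : X ^ (θ - 3 / 4) / 10000 ≤ Y := by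
    have h1 : X ^ (θ - 3 / 4) / 5000 < Y + 1 := by rw [hY]; exact Nat.lt_floor_add_one _
    linarith
  have hpwx : X ^ (θ - 3 / 4) ≤ x := by
    rw [hx]
    exact Real.rpow_le_rpow_of_exponent_le hX1 (by linarith)
  have hYS : Y ≤ S := by
    have : (Y : ℝ) ≤ S := by linarith
    exact_mod_cast this
  have hSx : (S : ℝ) ≤ x := by linarith
  have hSpos : (0 : ℝ) < S := by linarith [div_pos hx0 (by norm_num : (0 : ℝ) < 240)]
  have hSY : (S : ℝ) ^ θ' ≤ Y := by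
    refine le_trans ?_ hY2
    have h1 : (S : ℝ) ^ θ' ≤ x ^ θ' := Real.rpow_le_rpow hSpos.le hSx (by linarith)
    have h2 : x ^ θ' = X ^ (θ' / 4) := by
      rw [hx, ← Real.rpow_mul hX0.le]; congr 1; ring
    have h3 : X ^ (θ - 3 / 4 - θ' / 4) * X ^ (θ' / 4) = X ^ (θ - 3 / 4) := by
      rw [← Real.rpow_add hX0]; congr 1; ring
    rw [le_div_iff₀ (by norm_num)]
    have h4 : 0 < X ^ (θ' / 4) := Real.rpow_pos_of_pos hX0 _
    calc (S : ℝ) ^ θ' * 10000 ≤ X ^ (θ' / 4) * 10000 := by rw [← h2]; gcongr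
      _ = 10000 * X ^ (θ' / 4) := by ring
      _ ≤ X ^ (θ - 3 / 4 - θ' / 4) * X ^ (θ' / 4) := by gcongr
      _ = X ^ (θ - 3 / 4) := h3
  have hmain := hS₀ S hSS Y hSY hYS
  classical
  obtain ⟨G, hG⟩ : ∃ G, G = (Ioc S (S + Y)).filter (fun s : ℕ =>
    Almost (ff r) ρ ((S : ℝ) ^ (1 / (ρ : ℝ))) s ∧
          ∀ x, ∀ p : ℕ, p.Prime → ¬ (p : ℤ) ^ 2 ∣ (ff r x).eval (s : ℤ)) := ⟨_, rfl⟩
  have hmain' : c * Y / Real.log S ^ n ≤ (G.card : ℝ) := by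
    rw [hG]; exact hmain
  -- sizes
  have hz5 : (5 : ℝ) ≤ (S : ℝ) ^ (1 / (ρ : ℝ)) := by
    have h1 : (5 : ℝ) ^ ρ ≤ S := by linarith
    have h2 : ((5 : ℝ) ^ ρ) ^ (1 / (ρ : ℝ)) ≤ (S : ℝ) ^ (1 / (ρ : ℝ)) :=
      Real.rpow_le_rpow h5ρ.le h1 (by positivity)
    rwa [← Real.rpow_natCast, ← Real.rpow_mul (by norm_num), mul_one_div_cancel hρ0.ne',
      Real.rpow_one] at h2
  have hzR : X ^ (1 / (R : ℝ)) ≤ (S : ℝ) ^ (1 / (ρ : ℝ)) := by
    have h1 : X ^ (1 / (R : ℝ)) ≤ X ^ (1 / (5 * (ρ : ℝ))) := by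
      apply Real.rpow_le_rpow_of_exponent_le hX1
      apply one_div_le_one_div_of_le (by positivity)
      have : 5 * ρ ≤ R := by omega
      exact_mod_cast this
    refine h1.trans ?_
    have h2 : X ^ (1 / (5 * (ρ : ℝ))) = (X ^ (1 / 5 : ℝ)) ^ (1 / (ρ : ℝ)) := by
      rw [← Real.rpow_mul hX0.le]; congr 1; field_simp
    rw [h2]
    apply Real.rpow_le_rpow (by positivity) _ (by positivity)
    have h3 : X ^ (1 / 20 : ℝ) * X ^ (1 / 5 : ℝ) = x := by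
      rw [hx, ← Real.rpow_add hX0]; norm_num
    have h4 : 240 * X ^ (1 / 5 : ℝ) ≤ x := by
      rw [← h3]
      gcongr
    linarith
  -- the map
  have hmapsto : ∀ s ∈ G, ((480 * s + 1) ^ 4 / 16 - KK r ^ 4 : ℕ) ∈
      {n : ℕ | X ≤ n ∧ (n : ℝ) + ((KK r ^ 4 : ℕ) : ℝ) ≤ X + X ^ θ ∧ ∀ j ∈ ({1, 2, 3, 5, 6, 7} : Set ℕ),
          r ≤ (Wn n (KK r ^ 4) R j (X ^ (1 / (R : ℝ)))).ncard} := by
    intro s hs
    rw [hG, mem_filter, mem_Ioc] at hs
    obtain ⟨⟨hs1, hs2⟩, hA, hsq⟩ := hs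
    have hsS : KK r < s := by omega
    have hK : KK r ^ 4 ≤ (480 * s + 1) ^ 4 / 16 := by
      rw [Nat.le_div_iff_mul_le (by norm_num)]
      have h2 : (2 * KK r) ^ 4 ≤ (480 * s + 1) ^ 4 := Nat.pow_le_pow_left (by omega) 4
      have h3 : (2 * KK r) ^ 4 = KK r ^ 4 * 16 := by ring
      omega
    have hs1' : (S : ℝ) + 1 ≤ s := by exact_mod_cast hs1
    have hs2' : (s : ℝ) ≤ S + Y := by exact_mod_cast hs2
    refine ⟨?_, ?_, ?_⟩
    · rw [Nat.cast_sub hK]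
      push_cast
      have h1 : ((480 * s + 1) ^ 4 : ℝ) / 16 - 1 ≤ (((480 * s + 1) ^ 4 / 16 : ℕ) : ℝ) := by
        have h2 : (480 * s + 1) ^ 4 < ((480 * s + 1) ^ 4 / 16 + 1) * 16 := by omega
        have h3 : ((480 * (s : ℝ) + 1) ^ 4) < ((((480 * s + 1) ^ 4 / 16 : ℕ) : ℝ) + 1) * 16 := by
          exact_mod_cast h2
        linarith
      have h4 : 2 * x + 480 ≤ 480 * (s : ℝ) + 1 := by linarith
      have h5 : (2 * x + 480) ^ 4 ≤ (480 * (s : ℝ) + 1) ^ 4 := by gcongr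
      have h6 : 16 * X + 16 * (KK r : ℝ) ^ 4 + 16 ≤ (2 * x + 480) ^ 4 := by
        have h7 : (2 * x + 480) ^ 4 = 16 * x ^ 4 + 15360 * x ^ 3 + 5529600 * x ^ 2 + 884736000 * x +
          53084160000 := by ring
        rw [h7, hx4]
        have h8 : 0 ≤ x ^ 3 := by positivity
        have h9 : 0 ≤ x ^ 2 := by positivity
        linarith
      linarith
    · rw [Nat.cast_sub hK]
      have h1 : (((480 * s + 1) ^ 4 / 16 : ℕ) : ℝ) ≤ (480 * (s : ℝ) + 1) ^ 4 / 16 := by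
        have := @Nat.cast_div_le ℝ _ _ _ ((480 * s + 1) ^ 4) 16
        push_cast at this
        exact_mod_cast this
      have h2 : (((480 * s + 1) ^ 4 / 16 : ℕ) : ℝ) - ((KK r ^ 4 : ℕ) : ℝ) + ((KK r ^ 4 : ℕ) : ℝ) =
        (((480 * s + 1) ^ 4 / 16 : ℕ) : ℝ) := by ring
      rw [h2]
      refine h1.trans ?_
      obtain ⟨w, hw⟩ : ∃ w : ℝ, w = X ^ (θ - 3 / 4) := ⟨_, rfl⟩
      rw [← hw] at hY1 hpw0 hpwx e4
      have h3 : 480 * (s : ℝ) + 1 ≤ 2 * x + 481 + 480 * (w / 5000) + 480 := by linarith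
      have h4 : 480 * (s : ℝ) + 1 ≤ 2 * x + w / 5 := by linarith
      have h5 : (480 * (s : ℝ) + 1) ^ 4 ≤ (2 * x + w / 5) ^ 4 := by gcongr
      have h6 : (2 * x + w / 5) ^ 4 ≤ 16 * x ^ 4 + 16 * (x ^ 3 * w) := by
        have h7 : (2 * x + w / 5) ^ 4 = 16 * x ^ 4 + 32 / 5 * (x ^ 3 * w) + 24 / 25 * (x ^ 2 * w ^ 2) +
          8 / 125 * (x * w ^ 3) + 1 / 625 * w ^ 4 := by ring
        have h8 : x ^ 2 * w ^ 2 ≤ x ^ 3 * w := by
          have : x ^ 2 * w * w ≤ x ^ 2 * w * x := by gcongr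
          nlinarith
        have h9 : x * w ^ 3 ≤ x ^ 3 * w := by
          have h10 : w ^ 2 ≤ x ^ 2 := by gcongr
          have : x * w * w ^ 2 ≤ x * w * x ^ 2 := by gcongr
          nlinarith
        have h10 : w ^ 4 ≤ x ^ 3 * w := by
          have h11 : w ^ 3 ≤ x ^ 3 := by gcongr
          have : w ^ 3 * w ≤ x ^ 3 * w := by gcongr
          nlinarith
        have h11 : 0 ≤ x ^ 3 * w := by positivity
        linarith
      have h12 : x ^ 3 * w = X ^ θ := by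
        rw [hx3, hw, ← Real.rpow_add hX0]; congr 1; ring
      rw [hx4, h12] at h6
      linarith
    · intro j hj
      obtain ⟨a, rfl⟩ := class_cases j hj
      exact window r ρ _ hz5 s hsS hA hsq a _ hzR R (by omega)
  have hfin : {n : ℕ | X ≤ n ∧ (n : ℝ) + ((KK r ^ 4 : ℕ) : ℝ) ≤ X + X ^ θ ∧ ∀ j ∈ ({1, 2, 3, 5, 6, 7} : Set ℕ),
          r ≤ (Wn n (KK r ^ 4) R j (X ^ (1 / (R : ℝ)))).ncard}.Finite := by
    apply (Set.finite_Iic ⌈X + X ^ θ⌉₊).subset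
    intro n hn
    rw [Set.mem_Iic]
    have h1 : (n : ℝ) ≤ X + X ^ θ := by
      have := hn.2.1
      have h2 : (0 : ℝ) ≤ ((KK r ^ 4 : ℕ) : ℝ) := Nat.cast_nonneg _
      linarith
    have h2 := h1.trans (Nat.le_ceil _)
    exact_mod_cast h2
  have hinj : Set.InjOn (fun s : ℕ => (480 * s + 1) ^ 4 / 16 - KK r ^ 4) (G : Set ℕ) := by
    intro s hs s' hs' h
    rw [Finset.mem_coe, hG, mem_filter, mem_Ioc] at hs hs'
    simp only at h
    have hKs : ∀ s : ℕ, S < s → KK r ^ 4 ≤ (480 * s + 1) ^ 4 / 16 := by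
      intro s hs
      rw [Nat.le_div_iff_mul_le (by norm_num)]
      have h2 : (2 * KK r) ^ 4 ≤ (480 * s + 1) ^ 4 := Nat.pow_le_pow_left (by omega) 4
      have h3 : (2 * KK r) ^ 4 = KK r ^ 4 * 16 := by ring
      omega
    have k1 := hKs s hs.1.1
    have k2 := hKs s' hs'.1.1
    have hst : ∀ s s' : ℕ, s < s' → (480 * s + 1) ^ 4 / 16 < (480 * s' + 1) ^ 4 / 16 := by
      intro s s' hss
      have h4 : (480 * s + 1) ^ 4 + 16 ≤ (480 * s' + 1) ^ 4 := by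
        have h5 : (480 * s + 1 + 480) ^ 4 ≤ (480 * s' + 1) ^ 4 := Nat.pow_le_pow_left (by omega) 4
        have h6 : (480 * s + 1) ^ 4 + 16 ≤ (480 * s + 1 + 480) ^ 4 := by
          obtain ⟨y, hy⟩ : ∃ y, y = 480 * s + 1 := ⟨_, rfl⟩
          rw [← hy]
          have : (y + 480) ^ 4 = y ^ 4 + (1920 * y ^ 3 + 1382400 * y ^ 2 + 442368000 * y +
            53084160000) := by ring
          omega
        omega
      omega
    rcases lt_trichotomy s s' with h3 | h3 | h3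
    · have := hst s s' h3
      omega
    · exact h3
    · have := hst s' s h3
      omega
  have hcount : (G.card : ℝ) ≤ (({n : ℕ | X ≤ n ∧ (n : ℝ) + ((KK r ^ 4 : ℕ) : ℝ) ≤ X + X ^ θ ∧ ∀ j ∈ ({1, 2, 3, 5, 6, 7} : Set ℕ),
          r ≤ (Wn n (KK r ^ 4) R j (X ^ (1 / (R : ℝ)))).ncard}.ncard : ℕ) : ℝ) := by
    have h1 : (G : Set ℕ).ncard ≤ _ := Set.ncard_le_ncard_of_injOn _ hmapsto hinj hfin
    rw [Set.ncard_coe_finset] at h1
    exact_mod_cast h1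
  refine le_trans ?_ hcount
  refine le_trans ?_ hmain'
  -- the final comparison
  have hl1 : 1 ≤ Real.log X := (le_max_left _ _).trans e5
  have hl2 : 10000 / c ≤ Real.log X := (le_max_right _ _).trans e5
  have hS2' : (1 : ℝ) < S := by
    have : 1 < S := by
      have h1 : (5 : ℝ) ^ ρ ≤ S := by linarith
      have h2 : (1 : ℝ) < 5 ^ ρ := one_lt_pow₀ (by norm_num) (by omega)
      have h3 : (1 : ℝ) < S := by linarith
      exact_mod_cast h3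
    exact_mod_cast this
  have hlS0 : 0 < Real.log S := Real.log_pos hS2'
  have hxX : x ≤ X := by
    rw [← hx4]
    have : x * 1 ≤ x * x ^ 3 := by
      gcongr
      exact one_le_pow₀ (by linarith)
    nlinarith
  have hlS : Real.log S ≤ Real.log X := Real.log_le_log hSpos (by linarith)
  have h1 : Real.log S ^ n ≤ Real.log X ^ n := by gcongr
  have h2 : c * Y / Real.log X ^ n ≤ c * Y / Real.log S ^ n := by
    apply div_le_div_of_nonneg_left (by positivity) (by positivity) h1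
  refine le_trans ?_ h2
  rw [div_le_div_iff₀ (by positivity) (by positivity)]
  have h3 : Real.log X ^ (n + 1) ≤ Real.log X ^ R := pow_le_pow_right₀ hl1 (by omega)
  have h4 : X ^ (θ - 3 / 4) ≤ 10000 * Y := by linarith
  have h5 : 10000 ≤ c * Real.log X := by
    rw [div_le_iff₀ hc] at hl2
    linarith
  have hlpos : 0 < Real.log X := by linarith
  calc X ^ (θ - 3 / 4) * Real.log X ^ n ≤ 10000 * Y * Real.log X ^ n := by gcongr
    _ = Y * Real.log X ^ n * 10000 := by ring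
    _ ≤ Y * Real.log X ^ n * (c * Real.log X) := by gcongr
    _ = c * Y * Real.log X ^ (n + 1) := by ring
    _ ≤ c * Y * Real.log X ^ R := by gcongr

end Pool.Agent.Y675.CL
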