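import Mathlib

set_option autoImplicit false

/-!
# Congruent numbers `(t ^ 4 - k ^ 4) / 16`: algebra
-/

namespace Pool.Agent.Y675.CL

/-- the base values of `k` -/
def cc : Fin 6 → ℕ := ![1125, 5625, 3645, 405, 2025, 45]

/-- the residue classes modulo `8` -/
def jj : Fin 6 → ℕ := ![1, 2, 3, 5, 6, 7]

/-- one fourth of the divisor of `t - k` -/
def ee : Fin 6 → ℕ := ![1, 2, 1, 1, 2, 1]

/-- residues modulo `32` of the `k` -/
def kap : Fin 6 → ℕ := ![5, 25, 29, 21, 9, 13]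

/-- the parameters `k` -/
def kk (a : Fin 6) (i : ℕ) : ℕ := cc a * 6561 ^ i

lemma kk_mod (a : Fin 6) (i : ℕ) : kk a i % 32 = kap a := by
  have h : 6561 ^ i % 32 = 1 := by
    rw [Nat.pow_mod]; norm_num
  unfold kk
  rw [Nat.mul_mod, h]
  fin_cases a <;> simp [cc, kap]

lemma kk_pos (a : Fin 6) (i : ℕ) : 0 < kk a i := by
  unfold kk
  have : 0 < cc a := by fin_cases a <;> simp [cc]
  positivity

lemma kk_inj (a b : Fin 6) (i j : ℕ) (h : kk a i = kk b j) : a = b ∧ i = j := by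
  have h1 : kap a = kap b := by rw [← kk_mod a i, ← kk_mod b j, h]
  have h2 : a = b := by
    revert h1
    fin_cases a <;> fin_cases b <;> simp [kap]
  subst h2
  refine ⟨rfl, ?_⟩
  unfold kk at h
  have hc : 0 < cc a := by fin_cases a <;> simp [cc]
  have h3 := Nat.eq_of_mul_eq_mul_left hc h
  exact Nat.pow_right_injective (by norm_num) h3

/-- the prime factors of `kk` are `3` and `5` -/
lemma prime_dvd_kk (a : Fin 6) (i p : ℕ) (hp : p.Prime) (h : p ∣ kk a i) : p = 3 ∨ p = 5 := by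
  unfold kk at h
  have h15 : p ∣ 15 ^ 20 * 3 ^ (8 * i) := by
    refine h.trans ?_
    rw [pow_mul]
    refine Nat.mul_dvd_mul ?_ (by norm_num)
    fin_cases a <;> simp [cc]
  rcases hp.dvd_mul.1 h15 with h4 | h4
  · have h5 := hp.dvd_of_dvd_pow h4
    have h6 : p ∣ 3 * 5 := by simpa using h5
    rcases hp.dvd_mul.1 h6 with h7 | h7
    · left; exact (Nat.prime_dvd_prime_iff_eq hp Nat.prime_three).1 h7
    · right; exact (Nat.prime_dvd_prime_iff_eq hp Nat.prime_five).1 h7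
  · left
    exact (Nat.prime_dvd_prime_iff_eq hp Nat.prime_three).1 (hp.dvd_of_dvd_pow h4)

lemma three_dvd_kk (a : Fin 6) (i : ℕ) : 3 ∣ kk a i := by
  unfold kk
  refine Dvd.dvd.mul_right ?_ _
  fin_cases a <;> simp [cc]

lemma five_dvd_kk (a : Fin 6) (i : ℕ) : 5 ∣ kk a i := by
  unfold kk
  refine Dvd.dvd.mul_right ?_ _
  fin_cases a <;> simp [cc]

/-- the three factors: data of integers -/
lemma factors (a : Fin 6) (i : ℕ) : ∃ b₀ b₁ b₂ : ℤ,
    4 * (ee a : ℤ) * b₀ = 1 - kk a i ∧ 2 * b₁ = 1 + kk a i ∧ 2 * b₂ = 1 + (kk a i : ℤ) ^ 2 ∧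
    b₀ % 2 = 1 ∧ b₁ % 2 = 1 ∧ b₂ % 2 = 1 := by
  obtain ⟨l, hl⟩ : ∃ l : ℤ, (kk a i : ℤ) = 32 * l + kap a := by
    refine ⟨(kk a i / 32 : ℕ), ?_⟩
    have h1 := kk_mod a i
    have h2 := Nat.div_add_mod (kk a i) 32
    rw [h1] at h2
    exact_mod_cast h2.symm
  rw [hl]
  have key : ∀ e κ α β γ α' β' γ' : ℤ, 4 * e * (- α * l + β) = 1 - (32 * l + κ) →
      2 * (16 * l + γ) = 1 + (32 * l + κ) →
      2 * (512 * l ^ 2 + α' * l + β') = 1 + (32 * l + κ) ^ 2 → α = 2 * γ' → β % 2 = 1 → γ % 2 = 1 →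
      α' % 2 = 0 → β' % 2 = 1 →
      ∃ b₀ b₁ b₂ : ℤ, 4 * e * b₀ = 1 - (32 * l + κ) ∧ 2 * b₁ = 1 + (32 * l + κ) ∧
        2 * b₂ = 1 + (32 * l + κ) ^ 2 ∧ b₀ % 2 = 1 ∧ b₁ % 2 = 1 ∧ b₂ % 2 = 1 := by
    intro e κ α β γ α' β' γ' h1 h2 h3 h4 h5 h6 h7 h8
    refine ⟨_, _, _, h1, h2, h3, ?_, by omega, ?_⟩
    · rw [h4]
      have : -(2 * γ') * l + β = 2 * (- γ' * l) + β := by ring
      omega
    · obtain ⟨c, hc⟩ : ∃ c, α' = 2 * c := ⟨α' / 2, by omega⟩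
      rw [hc]
      have : 512 * l ^ 2 + 2 * c * l + β' = 2 * (256 * l ^ 2 + c * l) + β' := by ring
      omega
  fin_cases a
  · exact key 1 5 8 (-1) 3 160 13 4 (by ring) (by ring) (by ring) (by norm_num) (by norm_num)
      (by norm_num) (by norm_num) (by norm_num)
  · exact key 2 25 4 (-3) 13 800 313 2 (by ring) (by ring) (by ring) (by norm_num) (by norm_num)
      (by norm_num) (by norm_num) (by norm_num)
  · exact key 1 29 8 (-7) 15 928 421 4 (by ring) (by ring) (by ring) (by norm_num) (by norm_num)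
      (by norm_num) (by norm_num) (by norm_num)
  · exact key 1 21 8 (-5) 11 672 221 4 (by ring) (by ring) (by ring) (by norm_num) (by norm_num)
      (by norm_num) (by norm_num) (by norm_num)
  · exact key 2 9 4 (-1) 5 288 41 2 (by ring) (by ring) (by ring) (by norm_num) (by norm_num)
      (by norm_num) (by norm_num) (by norm_num)
  · exact key 1 13 8 (-3) 7 416 85 4 (by ring) (by ring) (by ring) (by norm_num) (by norm_num)
      (by norm_num) (by norm_num) (by norm_num)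

/-- the class of `(t ^ 4 - k ^ 4) / 16` modulo `8` -/
lemma class_mod (a : Fin 6) (i : ℕ) (s d : ℤ) (h : 16 * d = (480 * s + 1) ^ 4 - (kk a i : ℤ) ^ 4) :
    d % 8 = jj a := by
  obtain ⟨l, hl⟩ : ∃ l : ℤ, (kk a i : ℤ) = 32 * l + kap a := by
    refine ⟨(kk a i / 32 : ℕ), ?_⟩
    have h1 := kk_mod a i
    have h2 := Nat.div_add_mod (kk a i) 32
    rw [h1] at h2
    exact_mod_cast h2.symm
  rw [hl] at h
  obtain ⟨m, hm⟩ : ∃ m : ℤ, m = (15 * s) + 48 * (15 * s) ^ 2 + 1024 * (15 * s) ^ 3 +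
    8192 * (15 * s) ^ 4 := ⟨_, rfl⟩
  have e1 : (480 * s + 1) ^ 4 = 128 * m + 1 := by rw [hm]; ring
  obtain ⟨n, hn⟩ : ∃ n : ℤ, n = l * kap a ^ 3 + 48 * l ^ 2 * kap a ^ 2 + 1024 * l ^ 3 * kap a +
    8192 * l ^ 4 := ⟨_, rfl⟩
  have e2 : (32 * l + (kap a : ℤ)) ^ 4 = 128 * n + (kap a : ℤ) ^ 4 := by rw [hn]; ring
  rw [e1, e2] at h
  fin_cases a <;> simp [kap] at h <;> simp [jj] <;> omega

/-- `d` is the area of a right triangle with rational sides -/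
def Cong (d : ℕ) : Prop :=
  ∃ a b c : ℚ, 0 < a ∧ 0 < b ∧ 0 < c ∧ a ^ 2 + b ^ 2 = c ^ 2 ∧ a * b / 2 = (d : ℚ)

lemma cong_of (t k d : ℕ) (hk : 0 < k) (hkt : k < t) (h : 16 * (d : ℤ) = (t : ℤ) ^ 4 - (k : ℤ) ^ 4) :
    Cong d := by
  have ht : (0 : ℚ) < t := by exact_mod_cast (by omega : 0 < t)
  have hk' : (0 : ℚ) < k := by exact_mod_cast hk
  have hkt' : (k : ℚ) < t := by exact_mod_cast hkt
  have h' : 16 * (d : ℚ) = (t : ℚ) ^ 4 - (k : ℚ) ^ 4 := by exact_mod_cast h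
  have h4 : (k : ℚ) ^ 4 < (t : ℚ) ^ 4 := by gcongr
  refine ⟨((t : ℚ) ^ 4 - k ^ 4) / (4 * t * k), t * k / 2, ((t : ℚ) ^ 4 + k ^ 4) / (4 * t * k),
    ?_, by positivity, by positivity, ?_, ?_⟩
  · apply div_pos (by linarith) (by positivity)
  · field_simp
    ring
  · rw [← h']
    field_simp
    ring

end Pool.Agent.Y675.CL
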