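import Mathlib

set_option autoImplicit false

/-!
# Values of linear and quadratic polynomials divisible by the square of a large prime
-/

namespace Pool.Agent.Y675.CL

open Finset

lemma cong_card (q S Y : ℕ) (hq : 0 < q) (A : Finset ℕ) (hA : ∀ x ∈ A, S < x ∧ x ≤ S + Y)
    (hc : ∀ x ∈ A, ∀ y ∈ A, (q : ℤ) ∣ (x : ℤ) - y) : A.card ≤ Y / q + 1 := by
  have h : A.card ≤ (range (Y / q + 1)).card := by
    apply card_le_card_of_injOn (fun x => (x - S - 1) / q)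
    · intro x hx
      rw [Finset.mem_coe] at hx
      rw [Finset.mem_coe, mem_range]
      have h1 := hA x hx
      have : (x - S - 1) / q ≤ Y / q := Nat.div_le_div_right (by omega)
      beta_reduce
      omega
    · intro x hx y hy hxy
      rw [Finset.mem_coe] at hx hy
      simp only at hxy
      have h1 := hA x hx
      have h2 := hA y hy
      have h3 := hc x hx y hy
      obtain ⟨x', rfl⟩ : ∃ x', x = x' + S + 1 := ⟨x - S - 1, by omega⟩
      obtain ⟨y', rfl⟩ : ∃ y', y = y' + S + 1 := ⟨y - S - 1, by omega⟩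
      have e1 : x' + S + 1 - S - 1 = x' := by omega
      have e2 : y' + S + 1 - S - 1 = y' := by omega
      rw [e1, e2] at hxy
      have h4 : (q : ℤ) ∣ (x' : ℤ) - y' := by
        have : (x' : ℤ) - y' = ((x' + S + 1 : ℕ) : ℤ) - ((y' + S + 1 : ℕ) : ℤ) := by push_cast; ring
        rw [this]; exact h3
      have h5 : x' % q = y' % q := by
        have := (Int.emod_emod_of_dvd (x' : ℤ) (dvd_refl (q : ℤ)))
        have h6 : (x' : ℤ) % q = (y' : ℤ) % q := Int.emod_eq_emod_iff_emod_sub_eq_zero.2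
          (Int.emod_eq_zero_of_dvd h4)
        exact_mod_cast h6
      have h7 := Nat.div_add_mod x' q
      have h8 := Nat.div_add_mod y' q
      rw [hxy, h5] at h7
      omega
  simpa using h

lemma sum_inv_sq (z P : ℕ) (hz : 1 ≤ z) : ∑ n ∈ Ioc z P, (1 / (n : ℝ) ^ 2) ≤ 1 / (z : ℝ) := by
  have hz0 : (0 : ℝ) < z := by exact_mod_cast hz
  rcases le_or_gt P z with h | h
  · rw [Ioc_eq_empty (by omega)]
    simp
  · have key : ∀ m, z ≤ m → ∑ n ∈ Ioc z m, (1 / (n : ℝ) ^ 2) ≤ 1 / (z : ℝ) - 1 / (m : ℝ) := by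
      intro m hm
      induction m, hm using Nat.le_induction with
      | base => simp
      | succ m hm ih =>
        have hm0 : (0 : ℝ) < m := lt_of_lt_of_le hz0 (by exact_mod_cast hm)
        rw [← Finset.insert_Ioc_right_eq_Ioc_add_one (by omega), sum_insert (by simp)]
        have h1 : 1 / ((m + 1 : ℕ) : ℝ) ^ 2 ≤ 1 / (m : ℝ) - 1 / ((m + 1 : ℕ) : ℝ) := by
          push_cast
          rw [div_sub_div _ _ hm0.ne' (by positivity), div_le_div_iff₀ (by positivity) (by positivity)]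
          nlinarith
        linarith
    have h1 := key P h.le
    have h2 : (0 : ℝ) ≤ 1 / (P : ℝ) := by positivity
    linarith

lemma sum_sq_count (Y z P : ℕ) (hz : 1 ≤ z) :
    ∑ p ∈ Ioc z P, (((Y / p ^ 2 + 1 : ℕ)) : ℝ) ≤ (Y : ℝ) / z + P := by
  have h1 : ∀ p ∈ Ioc z P, (((Y / p ^ 2 + 1 : ℕ)) : ℝ) ≤ Y * (1 / (p : ℝ) ^ 2) + 1 := by
    intro p hp
    push_cast
    have : ((Y / p ^ 2 : ℕ) : ℝ) ≤ (Y : ℝ) / ((p ^ 2 : ℕ) : ℝ) := Nat.cast_div_le
    push_cast at this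
    rw [mul_one_div]
    linarith
  refine (sum_le_sum h1).trans ?_
  rw [sum_add_distrib, ← mul_sum]
  have h2 := sum_inv_sq z P hz
  have h3 : ∑ _p ∈ Ioc z P, (1 : ℝ) ≤ P := by
    rw [sum_const, nsmul_eq_mul, mul_one, Nat.card_Ioc]
    exact_mod_cast Nat.sub_le _ _
  have h4 : (Y : ℝ) * ∑ n ∈ Ioc z P, (1 / (n : ℝ) ^ 2) ≤ Y * (1 / (z : ℝ)) :=
    mul_le_mul_of_nonneg_left h2 (Nat.cast_nonneg _)
  rw [mul_one_div] at h4
  linarith

open Classical in
lemma bad_linear (a : ℕ) (b : ℤ) (S Y z W : ℕ) (hz : 1 ≤ z)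
    (ha : ∀ p : ℕ, p.Prime → z < p → ¬ p ∣ a)
    (hW : ∀ s : ℕ, S < s → s ≤ S + Y → 0 < (a : ℤ) * s + b ∧ (a : ℤ) * s + b ≤ (W : ℤ) ^ 2) :
    (((Ioc S (S + Y)).filter (fun s : ℕ => ∃ p : ℕ, p.Prime ∧ z < p ∧
      (p : ℤ) ^ 2 ∣ (a : ℤ) * s + b)).card : ℝ) ≤ (Y : ℝ) / z + W := by
  have hsub : (Ioc S (S + Y)).filter (fun s : ℕ => ∃ p : ℕ, p.Prime ∧ z < p ∧
      (p : ℤ) ^ 2 ∣ (a : ℤ) * s + b) ⊆ (Ioc z W).biUnion (fun p =>
      (Ioc S (S + Y)).filter (fun s : ℕ => p.Prime ∧ (p : ℤ) ^ 2 ∣ (a : ℤ) * s + b)) := by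
    intro s hs
    rw [mem_filter, mem_Ioc] at hs
    obtain ⟨⟨h1, h2⟩, p, hp, hzp, hd⟩ := hs
    obtain ⟨h3, h4⟩ := hW s h1 h2
    rw [mem_biUnion]
    refine ⟨p, ?_, ?_⟩
    · rw [mem_Ioc]
      refine ⟨hzp, ?_⟩
      have h5 := (Int.le_of_dvd h3 hd).trans h4
      have h6 : (p : ℤ) ≤ W := (pow_le_pow_iff_left₀ (by positivity) (by positivity) (by norm_num)).1 h5
      exact_mod_cast h6
    · rw [mem_filter, mem_Ioc]
      exact ⟨⟨h1, h2⟩, hp, hd⟩
  have h1 := (card_le_card hsub).trans card_biUnion_le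
  have h2 : ∑ p ∈ Ioc z W, ((Ioc S (S + Y)).filter (fun s : ℕ => p.Prime ∧
      (p : ℤ) ^ 2 ∣ (a : ℤ) * s + b)).card ≤ ∑ p ∈ Ioc z W, (Y / p ^ 2 + 1) := by
    apply sum_le_sum
    intro p hp
    rw [mem_Ioc] at hp
    by_cases hpp : p.Prime
    · apply cong_card (p ^ 2) S Y (pow_pos hpp.pos 2)
      · intro x hx
        rw [mem_filter, mem_Ioc] at hx
        exact hx.1
      · intro x hx y hy
        rw [mem_filter] at hx hy
        have h3 : ((p ^ 2 : ℕ) : ℤ) ∣ (a : ℤ) * ((x : ℤ) - y) := by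
          have : (a : ℤ) * ((x : ℤ) - y) = ((a : ℤ) * x + b) - ((a : ℤ) * y + b) := by ring
          rw [this]
          push_cast
          exact dvd_sub hx.2.2 hy.2.2
        have h4 : IsCoprime ((p ^ 2 : ℕ) : ℤ) (a : ℤ) := by
          rw [Nat.isCoprime_iff_coprime]
          exact Nat.Coprime.pow_left 2 ((Nat.Prime.coprime_iff_not_dvd hpp).2 (ha p hpp hp.1))
        exact h4.dvd_of_dvd_mul_left h3
    · have : (Ioc S (S + Y)).filter (fun s : ℕ => p.Prime ∧ (p : ℤ) ^ 2 ∣ (a : ℤ) * s + b) = ∅ := by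
        apply filter_false_of_mem
        intro x _ h
        exact hpp h.1
      rw [this, card_empty]
      exact Nat.zero_le _
  have h3 : ((((Ioc S (S + Y)).filter (fun s : ℕ => ∃ p : ℕ, p.Prime ∧ z < p ∧
      (p : ℤ) ^ 2 ∣ (a : ℤ) * s + b)).card : ℕ) : ℝ) ≤ ((∑ p ∈ Ioc z W, (Y / p ^ 2 + 1) : ℕ) : ℝ) := by
    exact_mod_cast h1.trans h2
  refine h3.trans ?_
  rw [Nat.cast_sum]
  exact sum_sq_count Y z W hz

open Classical in
/-- primes of moderate size -/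
lemma bad_quad1 (k T H z P : ℕ) (hz : 2 ≤ z) (hk : ∀ p : ℕ, p.Prime → z < p → ¬ p ∣ k) :
    (((Ioc T (T + H)).filter (fun t : ℕ => ∃ p : ℕ, p.Prime ∧ z < p ∧ p ≤ P ∧
      p ^ 2 ∣ t ^ 2 + k ^ 2)).card : ℝ) ≤ 2 * ((H : ℝ) / z + P) := by
  have hsub : (Ioc T (T + H)).filter (fun t : ℕ => ∃ p : ℕ, p.Prime ∧ z < p ∧ p ≤ P ∧
      p ^ 2 ∣ t ^ 2 + k ^ 2) ⊆ (Ioc z P).biUnion (fun p =>
      (Ioc T (T + H)).filter (fun t : ℕ => p.Prime ∧ p ^ 2 ∣ t ^ 2 + k ^ 2)) := by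
    intro s hs
    rw [mem_filter] at hs
    obtain ⟨h1, p, hp, hzp, hpP, hd⟩ := hs
    rw [mem_biUnion]
    exact ⟨p, mem_Ioc.2 ⟨hzp, hpP⟩, mem_filter.2 ⟨h1, hp, hd⟩⟩
  have h1 := (card_le_card hsub).trans card_biUnion_le
  have h2 : ∑ p ∈ Ioc z P, ((Ioc T (T + H)).filter (fun t : ℕ => p.Prime ∧
      p ^ 2 ∣ t ^ 2 + k ^ 2)).card ≤ ∑ p ∈ Ioc z P, 2 * (H / p ^ 2 + 1) := by
    apply sum_le_sum
    intro p hp
    rw [mem_Ioc] at hp
    by_cases hpp : p.Prime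
    · rcases ((Ioc T (T + H)).filter (fun t : ℕ => p.Prime ∧ p ^ 2 ∣ t ^ 2 + k ^ 2)).eq_empty_or_nonempty
        with he | ⟨t₁, ht₁⟩
      · rw [he, card_empty]; omega
      · rw [mem_filter] at ht₁
        have hsub2 : (Ioc T (T + H)).filter (fun t : ℕ => p.Prime ∧ p ^ 2 ∣ t ^ 2 + k ^ 2) ⊆
            (Ioc T (T + H)).filter (fun t : ℕ => ((p ^ 2 : ℕ) : ℤ) ∣ (t : ℤ) - t₁) ∪
            (Ioc T (T + H)).filter (fun t : ℕ => ((p ^ 2 : ℕ) : ℤ) ∣ (t : ℤ) + t₁) := by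
          intro t ht
          rw [mem_filter] at ht
          rw [mem_union, mem_filter, mem_filter]
          have hpi : Prime (p : ℤ) := Nat.prime_iff_prime_int.1 hpp
          have e1 : (p : ℤ) ^ 2 ∣ ((t : ℤ) - t₁) * (t + t₁) := by
            have d1 : (p : ℤ) ^ 2 ∣ (t : ℤ) ^ 2 + (k : ℤ) ^ 2 := by exact_mod_cast ht.2.2
            have d2 : (p : ℤ) ^ 2 ∣ (t₁ : ℤ) ^ 2 + (k : ℤ) ^ 2 := by exact_mod_cast ht₁.2.2
            have : ((t : ℤ) - t₁) * (t + t₁) = ((t : ℤ) ^ 2 + (k : ℤ) ^ 2) -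
              ((t₁ : ℤ) ^ 2 + (k : ℤ) ^ 2) := by ring
            rw [this]
            exact dvd_sub d1 d2
          have hnd : ¬ ((p : ℤ) ∣ (t : ℤ) - t₁ ∧ (p : ℤ) ∣ (t : ℤ) + t₁) := by
            rintro ⟨q1, q2⟩
            have q3 : (p : ℤ) ∣ 2 * t₁ := by
              have : (2 : ℤ) * t₁ = ((t : ℤ) + t₁) - (t - t₁) := by ring
              rw [this]; exact dvd_sub q2 q1
            have q4 : (p : ℤ) ∣ t₁ := by
              rcases hpi.dvd_or_dvd q3 with q5 | q5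
              · exfalso
                have q6 : p ∣ 2 := by exact_mod_cast q5
                have := Nat.le_of_dvd (by norm_num) q6
                omega
              · exact q5
            have q5 : p ∣ t₁ := by exact_mod_cast q4
            have q6 : p ∣ t₁ ^ 2 + k ^ 2 := (dvd_pow_self p (by norm_num)).trans ht₁.2.2
            have q7 : p ∣ k ^ 2 := (Nat.dvd_add_right (Dvd.dvd.pow q5 (by norm_num))).1 q6
            exact hk p hpp hp.1 (hpp.dvd_of_dvd_pow q7)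
          by_cases hc : (p : ℤ) ∣ (t : ℤ) - t₁
          · left
            refine ⟨ht.1, ?_⟩
            have hc2 : ¬ (p : ℤ) ∣ (t : ℤ) + t₁ := fun h => hnd ⟨hc, h⟩
            have hcop : IsCoprime ((p : ℤ) ^ 2) ((t : ℤ) + t₁) :=
              IsCoprime.pow_left ((Prime.coprime_iff_not_dvd hpi).2 hc2)
            push_cast
            exact hcop.dvd_of_dvd_mul_right e1
          · right
            refine ⟨ht.1, ?_⟩
            have hcop : IsCoprime ((p : ℤ) ^ 2) ((t : ℤ) - t₁) :=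
              IsCoprime.pow_left ((Prime.coprime_iff_not_dvd hpi).2 hc)
            push_cast
            exact hcop.dvd_of_dvd_mul_left e1
        have h3 := (card_le_card hsub2).trans (card_union_le _ _)
        have h4 : ((Ioc T (T + H)).filter (fun t : ℕ => ((p ^ 2 : ℕ) : ℤ) ∣ (t : ℤ) - t₁)).card ≤
            H / p ^ 2 + 1 := by
          apply cong_card (p ^ 2) T H (pow_pos hpp.pos 2)
          · intro x hx
            rw [mem_filter, mem_Ioc] at hx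
            exact hx.1
          · intro x hx y hy
            rw [mem_filter] at hx hy
            have : (x : ℤ) - y = ((x : ℤ) - t₁) - (y - t₁) := by ring
            rw [this]
            exact dvd_sub hx.2 hy.2
        have h5 : ((Ioc T (T + H)).filter (fun t : ℕ => ((p ^ 2 : ℕ) : ℤ) ∣ (t : ℤ) + t₁)).card ≤
            H / p ^ 2 + 1 := by
          apply cong_card (p ^ 2) T H (pow_pos hpp.pos 2)
          · intro x hx
            rw [mem_filter, mem_Ioc] at hx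
            exact hx.1
          · intro x hx y hy
            rw [mem_filter] at hx hy
            have : (x : ℤ) - y = ((x : ℤ) + t₁) - (y + t₁) := by ring
            rw [this]
            exact dvd_sub hx.2 hy.2
        omega
    · have : (Ioc T (T + H)).filter (fun t : ℕ => p.Prime ∧ p ^ 2 ∣ t ^ 2 + k ^ 2) = ∅ := by
        apply filter_false_of_mem
        intro x _ h
        exact hpp h.1
      rw [this, card_empty]
      omega
  have h3 : ((((Ioc T (T + H)).filter (fun t : ℕ => ∃ p : ℕ, p.Prime ∧ z < p ∧ p ≤ P ∧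
      p ^ 2 ∣ t ^ 2 + k ^ 2)).card : ℕ) : ℝ) ≤ ((∑ p ∈ Ioc z P, 2 * (H / p ^ 2 + 1) : ℕ) : ℝ) := by
    exact_mod_cast h1.trans h2
  refine h3.trans ?_
  rw [← mul_sum, Nat.cast_mul, Nat.cast_sum]
  have h4 := sum_sq_count H z P (by omega)
  push_cast at h4 ⊢
  linarith

open Classical in
/-- solutions of `t ^ 2 + k ^ 2 = N p ^ 2` in a short range: at most `3 k ^ 2 + 1` -/
lemma pell (k T H N : ℕ) (hk : 1 ≤ k) (hkT : k ≤ T) (hH : H ≤ T) :
    ((Ioc T (T + H)).filter (fun t : ℕ => ∃ p : ℕ, p.Prime ∧ ¬ p ∣ k ∧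
      t ^ 2 + k ^ 2 = N * p ^ 2)).card ≤ 3 * k ^ 2 + 1 := by
  set A := (Ioc T (T + H)).filter (fun t : ℕ => ∃ p : ℕ, p.Prime ∧ ¬ p ∣ k ∧
      t ^ 2 + k ^ 2 = N * p ^ 2) with hA
  rcases A.eq_empty_or_nonempty with he | hne
  · rw [he, card_empty]; omega
  obtain ⟨t₁, ht₁, hmin⟩ := A.exists_minimal hne
  have hmin' : ∀ t ∈ A, t₁ ≤ t := by
    intro t ht
    rcases le_total t₁ t with h | h
    · exact h
    · exact hmin ht h
  have hmem : ∀ t ∈ A, T < t ∧ t ≤ T + H ∧ ∃ p : ℕ, p.Prime ∧ ¬ p ∣ k ∧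
      t ^ 2 + k ^ 2 = N * p ^ 2 := by
    intro t ht
    rw [hA, mem_filter, mem_Ioc] at ht
    exact ⟨ht.1.1, ht.1.2, ht.2⟩
  choose! f hf using fun t (ht : t ∈ A) => (hmem t ht).2.2
  obtain ⟨hp1, hpk1, he1⟩ := hf t₁ ht₁
  set p₁ := f t₁ with hp₁
  have hT1 := (hmem t₁ ht₁).1
  have hN : 0 < N := by
    rcases Nat.eq_zero_or_pos N with h | h
    · exfalso
      rw [h, zero_mul] at he1
      have : 0 < k ^ 2 := by positivity
      omega
    · exact h
  have hcop : Nat.Coprime p₁ t₁ := by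
    rw [Nat.Prime.coprime_iff_not_dvd hp1]
    intro hd
    have h1 : p₁ ∣ t₁ ^ 2 + k ^ 2 := by
      rw [he1]
      exact Dvd.dvd.mul_left (dvd_pow_self _ (by norm_num)) _
    have h2 : p₁ ∣ k ^ 2 := (Nat.dvd_add_right (Dvd.dvd.pow hd (by norm_num))).1 h1
    exact hpk1 (hp1.dvd_of_dvd_pow h2)
  -- the main estimate
  have hmain : ∀ t ∈ A, t₁ * f t ≤ t * p₁ ∧ t * p₁ - t₁ * f t < 3 * k ^ 2 + 1 := by
    intro t ht
    obtain ⟨hp, hpk, he⟩ := hf t ht
    have htt := hmin' t ht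
    have hmt := hmem t ht
    obtain ⟨p, hpe⟩ : ∃ p, p = f t := ⟨_, rfl⟩
    rw [← hpe] at he hp hpk ⊢
    have hpp : p₁ ≤ p := by
      have h1 : N * p₁ ^ 2 ≤ N * p ^ 2 := by
        rw [← he1, ← he]
        have : t₁ ^ 2 ≤ t ^ 2 := Nat.pow_le_pow_left htt 2
        omega
      have h2 : p₁ ^ 2 ≤ p ^ 2 := Nat.le_of_mul_le_mul_left h1 hN
      exact (Nat.pow_le_pow_iff_left (by norm_num)).1 h2
    have hp0 : 0 < p := hp.pos
    have hp10 : 0 < p₁ := hp1.pos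
    -- identity over the integers
    have key : ((t : ℤ) * p₁ - t₁ * p) * ((t : ℤ) * p₁ + t₁ * p) = (k : ℤ) ^ 2 * ((p : ℤ) ^ 2 - (p₁ : ℤ) ^ 2) := by
      have q1 : (t : ℤ) ^ 2 + (k : ℤ) ^ 2 = N * (p : ℤ) ^ 2 := by exact_mod_cast he
      have q2 : (t₁ : ℤ) ^ 2 + (k : ℤ) ^ 2 = N * (p₁ : ℤ) ^ 2 := by exact_mod_cast he1
      linear_combination (p₁ : ℤ) ^ 2 * q1 - (p : ℤ) ^ 2 * q2
    have hnn : 0 ≤ (t : ℤ) * p₁ - t₁ * p := by
      by_contra hcon
      push Not at hcon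
      have h3 : 0 < (t : ℤ) * p₁ + t₁ * p := by
        have q1 : (0 : ℤ) < t := by exact_mod_cast (by omega : 0 < t)
        have q2 : (0 : ℤ) < p₁ := by exact_mod_cast hp10
        positivity
      have h4 : (0 : ℤ) ≤ (k : ℤ) ^ 2 * ((p : ℤ) ^ 2 - (p₁ : ℤ) ^ 2) := by
        apply mul_nonneg (by positivity)
        have : (p₁ : ℤ) ^ 2 ≤ (p : ℤ) ^ 2 := by
          have : (p₁ : ℤ) ≤ p := by exact_mod_cast hpp
          gcongr
        linarith
      nlinarith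
    have hub : (t : ℤ) * p₁ - t₁ * p < 3 * (k : ℤ) ^ 2 + 1 := by
      by_contra hcon
      push Not at hcon
      -- p < 3 t₁
      have hT1' : (T : ℤ) < t₁ := by exact_mod_cast hT1
      have hkT' : (k : ℤ) ≤ T := by exact_mod_cast hkT
      have htT : (t : ℤ) ≤ 2 * T := by
        have := hmt.2.1
        have h5 : t ≤ 2 * T := by omega
        exact_mod_cast h5
      have hT0 : (0 : ℤ) ≤ T := by positivity
      have hp3 : (p : ℤ) < 3 * t₁ := by
        by_contra hcon2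
        push Not at hcon2
        have q1 : (t : ℤ) ^ 2 + (k : ℤ) ^ 2 = N * (p : ℤ) ^ 2 := by exact_mod_cast he
        have hN1 : (1 : ℤ) ≤ N := by exact_mod_cast hN
        have q3 : (p : ℤ) ^ 2 ≤ N * (p : ℤ) ^ 2 := by nlinarith [sq_nonneg (p : ℤ)]
        have q4 : (t : ℤ) ^ 2 ≤ (2 * T) ^ 2 := by
          have : (0 : ℤ) ≤ t := by positivity
          gcongr
        have q5 : (k : ℤ) ^ 2 ≤ (T : ℤ) ^ 2 := by
          have : (0 : ℤ) ≤ k := by positivity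
          gcongr
        have q6 : (3 * (t₁ : ℤ)) ^ 2 ≤ (p : ℤ) ^ 2 := by
          have : (0 : ℤ) ≤ 3 * t₁ := by positivity
          gcongr
        have q7 : ((T : ℤ) + 1) ^ 2 ≤ (t₁ : ℤ) ^ 2 := by
          have : (T : ℤ) + 1 ≤ t₁ := by linarith
          gcongr
        have q8 : (3 * (t₁ : ℤ)) ^ 2 = 9 * (t₁ : ℤ) ^ 2 := by ring
        have q9 : (2 * (T : ℤ)) ^ 2 = 4 * (T : ℤ) ^ 2 := by ring
        have q10 : ((T : ℤ) + 1) ^ 2 = (T : ℤ) ^ 2 + 2 * T + 1 := by ring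
        have q11 : (0 : ℤ) ≤ (T : ℤ) ^ 2 := sq_nonneg _
        linarith
      have h3 : (t₁ : ℤ) * p ≤ (t : ℤ) * p₁ + t₁ * p := by
        have : (0 : ℤ) ≤ (t : ℤ) * p₁ := by positivity
        linarith
      have h4 : 3 * (k : ℤ) ^ 2 * ((t₁ : ℤ) * p) ≤
          ((t : ℤ) * p₁ - t₁ * p) * ((t : ℤ) * p₁ + t₁ * p) := by
        apply mul_le_mul (by linarith) h3 (by positivity) hnn
      rw [key] at h4
      have h5 : (k : ℤ) ^ 2 * ((p : ℤ) ^ 2 - (p₁ : ℤ) ^ 2) < (k : ℤ) ^ 2 * (3 * t₁ * p) := by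
        apply mul_lt_mul_of_pos_left _ (by positivity)
        have h6 : (0 : ℤ) < (p₁ : ℤ) ^ 2 := by positivity
        have h7 : (p : ℤ) ^ 2 ≤ 3 * t₁ * p := by
          have : (0 : ℤ) < p := by exact_mod_cast hp0
          have q12 : (p : ℤ) ^ 2 = p * p := by ring
          rw [q12]
          exact mul_le_mul_of_nonneg_right hp3.le this.le
        linarith
      have h9 : 3 * (k : ℤ) ^ 2 * ((t₁ : ℤ) * p) = (k : ℤ) ^ 2 * (3 * t₁ * p) := by ring
      linarith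
    constructor
    · have : (t₁ : ℤ) * p ≤ (t : ℤ) * p₁ := by linarith
      exact_mod_cast this
    · have h8 : t₁ * p ≤ t * p₁ := by
        have : (t₁ : ℤ) * p ≤ (t : ℤ) * p₁ := by linarith
        exact_mod_cast this
      zify [h8]
      push_cast at hub
      linarith
  have hcard : A.card ≤ (range (3 * k ^ 2 + 1)).card := by
    apply card_le_card_of_injOn (fun t => t * p₁ - t₁ * f t)
    · intro t ht
      rw [Finset.mem_coe] at ht
      rw [Finset.mem_coe, mem_range]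
      exact (hmain t ht).2
    · intro t ht t' ht' h
      rw [Finset.mem_coe] at ht ht'
      simp only at h
      have m1 := (hmain t ht).1
      have m2 := (hmain t' ht').1
      have h1 : (t : ℤ) * p₁ - t₁ * f t = (t' : ℤ) * p₁ - t₁ * f t' := by
        have := congrArg (fun n : ℕ => (n : ℤ)) h
        rw [Nat.cast_sub m1, Nat.cast_sub m2] at this
        push_cast at this
        exact this
      have h2 : (t₁ : ℤ) ∣ ((t : ℤ) - t') * p₁ := ⟨(f t : ℤ) - f t', by linear_combination h1⟩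
      have h3 : IsCoprime (t₁ : ℤ) (p₁ : ℤ) := (Nat.isCoprime_iff_coprime.2 hcop).symm
      have h4 : (t₁ : ℤ) ∣ (t : ℤ) - t' := h3.dvd_of_dvd_mul_right h2
      have b1 := hmem t ht
      have b2 := hmem t' ht'
      have b3 : |(t : ℤ) - t'| < t₁ := by
        rw [abs_lt]
        constructor <;> omega
      have h5 := Int.eq_zero_of_abs_lt_dvd h4 b3
      omega
  simpa using hcard

open Classical in
/-- large primes -/
lemma bad_quad2 (k T H P : ℕ) (hk : 1 ≤ k) (hkT : k ≤ T) (hH : H ≤ T) (hP : 1 ≤ P) :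
    ((Ioc T (T + H)).filter (fun t : ℕ => ∃ p : ℕ, p.Prime ∧ ¬ p ∣ k ∧ P < p ∧
      p ^ 2 ∣ t ^ 2 + k ^ 2)).card ≤ (5 * T ^ 2 / P ^ 2 + 1) * (3 * k ^ 2 + 1) := by
  have hsub : (Ioc T (T + H)).filter (fun t : ℕ => ∃ p : ℕ, p.Prime ∧ ¬ p ∣ k ∧ P < p ∧
      p ^ 2 ∣ t ^ 2 + k ^ 2) ⊆ (range (5 * T ^ 2 / P ^ 2 + 1)).biUnion (fun N =>
      (Ioc T (T + H)).filter (fun t : ℕ => ∃ p : ℕ, p.Prime ∧ ¬ p ∣ k ∧
      t ^ 2 + k ^ 2 = N * p ^ 2)) := by
    intro t ht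
    rw [mem_filter, mem_Ioc] at ht
    obtain ⟨⟨h1, h2⟩, p, hp, hpk, hPp, N, hN⟩ := ht
    rw [mem_biUnion]
    refine ⟨N, ?_, ?_⟩
    · rw [mem_range]
      have h3 : N * P ^ 2 ≤ 5 * T ^ 2 := by
        have e1 : N * P ^ 2 ≤ N * p ^ 2 := by gcongr
        have e2 : N * p ^ 2 = t ^ 2 + k ^ 2 := by rw [hN]; ring
        have e3 : t ^ 2 ≤ (2 * T) ^ 2 := Nat.pow_le_pow_left (by omega) 2
        have e4 : k ^ 2 ≤ T ^ 2 := Nat.pow_le_pow_left hkT 2
        have e5 : (2 * T) ^ 2 = 4 * T ^ 2 := by ring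
        omega
      have := (Nat.le_div_iff_mul_le (by positivity : 0 < P ^ 2)).2 h3
      omega
    · rw [mem_filter, mem_Ioc]
      exact ⟨⟨h1, h2⟩, p, hp, hpk, by rw [hN]; ring⟩
  refine (card_le_card hsub).trans (card_biUnion_le.trans ?_)
  refine (sum_le_sum (fun N _ => pell k T H N hk hkT hH)).trans ?_
  rw [sum_const, card_range, smul_eq_mul]

end Pool.Agent.Y675.CL
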