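import Pool.Agent.Y675.CL.Poly

set_option autoImplicit false

/-!
# Congruent numbers `(t ^ 4 - k ^ 4) / 16` with almost prime factors
-/

namespace Pool.Agent.Y675.CL

open Polynomial Pool.Agent.TH464.PW

/-- the number `(t ^ 4 - k ^ 4) / 16` -/
def dd (t k : ℕ) : ℕ := (t ^ 4 - k ^ 4) / 16

lemma dd_spec (r : ℕ) (a : Fin 6) (i : Fin (r + 1)) (s : ℕ) (hk : kk a i < 480 * s + 1) :
    ∃ U V W : ℕ, (U : ℤ) = (ff r (a, i, 0)).eval (s : ℤ) ∧ (V : ℤ) = (ff r (a, i, 1)).eval (s : ℤ) ∧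
      (W : ℤ) = (ff r (a, i, 2)).eval (s : ℤ) ∧ 0 < U ∧ 0 < V ∧ 0 < W ∧
      dd (480 * s + 1) (kk a i) = ee a * (U * (V * W)) ∧
      16 * (dd (480 * s + 1) (kk a i) : ℤ) = ((480 * s + 1 : ℕ) : ℤ) ^ 4 - (kk a i : ℤ) ^ 4 := by
  have h0 := ev0 r a i s
  have h1 := ev1 r a i s
  have h2 := ev2 r a i s
  have he : (0 : ℤ) < ee a := by exact_mod_cast ee_pos a
  have hk' : (kk a i : ℤ) < 480 * s + 1 := by exact_mod_cast hk
  have hk0 : (0 : ℤ) < kk a i := by exact_mod_cast kk_pos a i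
  have p0 : 0 < (ff r (a, i, 0)).eval (s : ℤ) := by
    by_contra hcon
    push Not at hcon
    have : 4 * (ee a : ℤ) * (ff r (a, i, 0)).eval (s : ℤ) ≤ 0 :=
      mul_nonpos_of_nonneg_of_nonpos (by positivity) hcon
    linarith
  have p1 : 0 < (ff r (a, i, 1)).eval (s : ℤ) := by
    have : (0 : ℤ) ≤ s := by positivity
    linarith
  have p2 : 0 < (ff r (a, i, 2)).eval (s : ℤ) := by
    have : (0 : ℤ) < (480 * (s : ℤ) + 1) ^ 2 + (kk a i : ℤ) ^ 2 := by positivity
    linarith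
  obtain ⟨U, hU⟩ := Int.eq_ofNat_of_zero_le p0.le
  obtain ⟨V, hV⟩ := Int.eq_ofNat_of_zero_le p1.le
  obtain ⟨W, hW⟩ := Int.eq_ofNat_of_zero_le p2.le
  rw [hU] at p0 h0
  rw [hV] at p1 h1
  rw [hW] at p2 h2
  have key : ((480 * s + 1 : ℕ) : ℤ) ^ 4 - (kk a i : ℤ) ^ 4 = 16 * (ee a * (U * (V * W))) := by
    push_cast
    have : (480 * (s : ℤ) + 1) ^ 4 - (kk a i : ℤ) ^ 4 = ((480 * (s : ℤ) + 1) - kk a i) *
      ((480 * (s : ℤ) + 1) + kk a i) * ((480 * (s : ℤ) + 1) ^ 2 + (kk a i : ℤ) ^ 2) := by ring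
    rw [this, ← h0, ← h1, ← h2]
    ring
  have hdd : dd (480 * s + 1) (kk a i) = ee a * (U * (V * W)) := by
    unfold dd
    have hle : kk a i ^ 4 ≤ (480 * s + 1) ^ 4 := Nat.pow_le_pow_left hk.le 4
    have : (480 * s + 1) ^ 4 - kk a i ^ 4 = 16 * (ee a * (U * (V * W))) := by
      zify [hle]
      push_cast at key
      exact key
    rw [this]
    exact Nat.mul_div_cancel_left _ (by norm_num)
  refine ⟨U, V, W, hU.symm, hV.symm, hW.symm, by exact_mod_cast p0, by exact_mod_cast p1,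
    by exact_mod_cast p2, hdd, ?_⟩
  rw [hdd, key]
  push_cast
  ring

/-- the good numbers -/
theorem good (r R : ℕ) (z : ℝ) (hz : 5 ≤ z) (a : Fin 6) (i : Fin (r + 1)) (s : ℕ)
    (hk : kk a i < 480 * s + 1) (hA : Almost (ff r) R z s)
    (hsq : ∀ y : Fin 3, ∀ p : ℕ, p.Prime → ¬ ((p : ℤ) ^ 2 ∣ (ff r (a, i, y)).eval (s : ℤ))) :
    dd (480 * s + 1) (kk a i) % 8 = jj a ∧ Squarefree (dd (480 * s + 1) (kk a i)) ∧
      Cong (dd (480 * s + 1) (kk a i)) ∧
      (dd (480 * s + 1) (kk a i)).primeFactors.card ≤ 3 * R + 1 ∧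
      ∀ p : ℕ, p.Prime → p ∣ dd (480 * s + 1) (kk a i) → p = 2 ∨ z < p := by
  obtain ⟨U, V, W, hU, hV, hW, pU, pV, pW, hdd, h16⟩ := dd_spec r a i s hk
  have h0 := ev0 r a i s
  have h1 := ev1 r a i s
  have h2 := ev2 r a i s
  rw [← hU] at h0
  rw [← hV] at h1
  rw [← hW] at h2
  have lU := (hA (a, i, 0)).1
  have lV := (hA (a, i, 1)).1
  have lW := (hA (a, i, 2)).1
  have qU := (hA (a, i, 0)).2
  have qV := (hA (a, i, 1)).2
  have qW := (hA (a, i, 2)).2
  have sU := hsq 0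
  have sV := hsq 1
  have sW := hsq 2
  have oU := odd0 r a i s
  have oV := odd1 r a i s
  have oW := odd2 r a i s
  rw [← hU] at lU qU sU oU
  rw [← hV] at lV qV sV oV
  rw [← hW] at lW qW sW oW
  rw [Int.natAbs_natCast] at lU lV lW
  have qU' : ∀ p : ℕ, p.Prime → p ∣ U → z < p := fun p hp h => qU p hp (by exact_mod_cast h)
  have qV' : ∀ p : ℕ, p.Prime → p ∣ V → z < p := fun p hp h => qV p hp (by exact_mod_cast h)
  have qW' : ∀ p : ℕ, p.Prime → p ∣ W → z < p := fun p hp h => qW p hp (by exact_mod_cast h)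
  have sf : ∀ n : ℕ, 0 < n → (∀ p : ℕ, p.Prime → ¬ ((p : ℤ) ^ 2 ∣ (n : ℤ))) → Squarefree n := by
    intro n _ h
    rw [Nat.squarefree_iff_prime_squarefree]
    intro p hp hd
    apply h p hp
    have : p ^ 2 ∣ n := by rw [pow_two]; exact hd
    exact_mod_cast this
  have sU' := sf U pU sU
  have sV' := sf V pV sV
  have sW' := sf W pW sW
  -- primes dividing two of the factors
  have big : ∀ p : ℕ, p.Prime → z < p → ¬ (p : ℤ) ∣ 2 * (kk a i : ℤ) ^ 2 := by
    intro p hp hzp hd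
    have hp5 : (5 : ℝ) < p := by linarith
    have hp5' : 5 < p := by exact_mod_cast hp5
    have hd' : p ∣ 2 * kk a i ^ 2 := by exact_mod_cast hd
    rcases hp.dvd_mul.1 hd' with h | h
    · have := Nat.le_of_dvd (by norm_num) h
      omega
    · rcases prime_dvd_kk a i p hp (hp.dvd_of_dvd_pow h) with h | h <;> omega
  have cUV : Nat.Coprime U V := by
    rw [Nat.coprime_iff_gcd_eq_one]
    by_contra hne
    obtain ⟨p, hp, hd⟩ := Nat.exists_prime_and_dvd hne
    have dU : (p : ℤ) ∣ (480 * (s : ℤ) + 1) - kk a i := by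
      rw [← h0]
      exact Dvd.dvd.mul_left (by exact_mod_cast hd.trans (Nat.gcd_dvd_left U V)) _
    have dV : (p : ℤ) ∣ (480 * (s : ℤ) + 1) + kk a i := by
      rw [← h1]
      exact Dvd.dvd.mul_left (by exact_mod_cast hd.trans (Nat.gcd_dvd_right U V)) _
    apply big p hp (qU' p hp (hd.trans (Nat.gcd_dvd_left U V)))
    have : 2 * (kk a i : ℤ) ^ 2 = kk a i * (((480 * (s : ℤ) + 1) + kk a i) -
      ((480 * (s : ℤ) + 1) - kk a i)) := by ring
    rw [this]
    exact Dvd.dvd.mul_left (dvd_sub dV dU) _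
  have cUW : Nat.Coprime U W := by
    rw [Nat.coprime_iff_gcd_eq_one]
    by_contra hne
    obtain ⟨p, hp, hd⟩ := Nat.exists_prime_and_dvd hne
    have dU : (p : ℤ) ∣ (480 * (s : ℤ) + 1) - kk a i := by
      rw [← h0]
      exact Dvd.dvd.mul_left (by exact_mod_cast hd.trans (Nat.gcd_dvd_left U W)) _
    have dW : (p : ℤ) ∣ (480 * (s : ℤ) + 1) ^ 2 + (kk a i : ℤ) ^ 2 := by
      rw [← h2]
      exact Dvd.dvd.mul_left (by exact_mod_cast hd.trans (Nat.gcd_dvd_right U W)) _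
    apply big p hp (qU' p hp (hd.trans (Nat.gcd_dvd_left U W)))
    have : 2 * (kk a i : ℤ) ^ 2 = ((480 * (s : ℤ) + 1) ^ 2 + (kk a i : ℤ) ^ 2) -
      ((480 * (s : ℤ) + 1) - kk a i) * ((480 * (s : ℤ) + 1) + kk a i) := by ring
    rw [this]
    exact dvd_sub dW (Dvd.dvd.mul_right dU _)
  have cVW : Nat.Coprime V W := by
    rw [Nat.coprime_iff_gcd_eq_one]
    by_contra hne
    obtain ⟨p, hp, hd⟩ := Nat.exists_prime_and_dvd hne
    have dV : (p : ℤ) ∣ (480 * (s : ℤ) + 1) + kk a i := by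
      rw [← h1]
      exact Dvd.dvd.mul_left (by exact_mod_cast hd.trans (Nat.gcd_dvd_left V W)) _
    have dW : (p : ℤ) ∣ (480 * (s : ℤ) + 1) ^ 2 + (kk a i : ℤ) ^ 2 := by
      rw [← h2]
      exact Dvd.dvd.mul_left (by exact_mod_cast hd.trans (Nat.gcd_dvd_right V W)) _
    apply big p hp (qV' p hp (hd.trans (Nat.gcd_dvd_left V W)))
    have : 2 * (kk a i : ℤ) ^ 2 = ((480 * (s : ℤ) + 1) ^ 2 + (kk a i : ℤ) ^ 2) -
      ((480 * (s : ℤ) + 1) - kk a i) * ((480 * (s : ℤ) + 1) + kk a i) := by ring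
    rw [this]
    exact dvd_sub dW (Dvd.dvd.mul_left dV _)
  have hVW : Squarefree (V * W) := (Nat.squarefree_mul_iff.2 ⟨cVW, sV', sW'⟩)
  have hUVW : Squarefree (U * (V * W)) :=
    (Nat.squarefree_mul_iff.2 ⟨Nat.Coprime.mul_right cUV cUW, sU', hVW⟩)
  have hodd : (U * (V * W)) % 2 = 1 := by
    have a1 : U % 2 = 1 := by omega
    have a2 : V % 2 = 1 := by omega
    have a3 : W % 2 = 1 := by omega
    rw [Nat.mul_mod, Nat.mul_mod V W, a1, a2, a3]
  have hee : ee a = 1 ∨ ee a = 2 := by fin_cases a <;> simp [ee]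
  refine ⟨?_, ?_, ?_, ?_, ?_⟩
  · have h16' : 16 * (dd (480 * s + 1) (kk a i) : ℤ) = (480 * (s : ℤ) + 1) ^ 4 - (kk a i : ℤ) ^ 4 := by
      rw [h16]; push_cast; ring
    have := class_mod a i s _ h16'
    exact_mod_cast this
  · rw [hdd]
    rcases hee with h | h
    · rw [h, one_mul]; exact hUVW
    · rw [h]
      refine Nat.squarefree_mul_iff.2 ⟨?_, Nat.prime_two.squarefree, hUVW⟩
      rw [Nat.coprime_two_left, Nat.odd_iff]
      exact hodd
  · exact cong_of (480 * s + 1) (kk a i) _ (kk_pos a i) hk h16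
  · rw [hdd]
    have hne : U * (V * W) ≠ 0 := by positivity
    have hne2 : V * W ≠ 0 := by positivity
    have hene : ee a ≠ 0 := (ee_pos a).ne'
    rw [Nat.primeFactors_mul hene hne, Nat.primeFactors_mul pU.ne' hne2,
      Nat.primeFactors_mul pV.ne' pW.ne']
    have c1 : (ee a).primeFactors.card ≤ 1 := by
      rcases hee with h | h
      · rw [h]; simp
      · rw [h, Nat.prime_two.primeFactors]; simp
    have cn : ∀ n : ℕ, n.primeFactorsList.length ≤ R → n.primeFactors.card ≤ R := by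
      intro n hn
      refine le_trans ?_ hn
      exact List.toFinset_card_le _
    have c2 := cn U lU
    have c3 := cn V lV
    have c4 := cn W lW
    have d1 := Finset.card_union_le (ee a).primeFactors (U.primeFactors ∪ (V.primeFactors ∪ W.primeFactors))
    have d2 := Finset.card_union_le U.primeFactors (V.primeFactors ∪ W.primeFactors)
    have d3 := Finset.card_union_le V.primeFactors W.primeFactors
    omega
  · intro p hp hd
    rw [hdd] at hd
    rcases hp.dvd_mul.1 hd with h | h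
    · left
      rcases hee with h' | h'
      · rw [h'] at h
        exact absurd (Nat.dvd_one.1 h) hp.one_lt.ne'
      · rw [h'] at h
        exact (Nat.prime_dvd_prime_iff_eq hp Nat.prime_two).1 h
    · right
      rcases hp.dvd_mul.1 h with h | h
      · exact qU' p hp h
      · rcases hp.dvd_mul.1 h with h | h
        · exact qV' p hp h
        · exact qW' p hp h

end Pool.Agent.Y675.CL
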