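import Pool.Agent.TH464.PW.Quad
import Pool.Agent.Y675.CL.Alg

set_option autoImplicit false

/-!
# Congruent numbers `(t ^ 4 - k ^ 4) / 16`: the system of polynomials
-/

namespace Pool.Agent.Y675.CL

open Polynomial Pool.Agent.TH464.PW Pool.Agent.W123.RU.Poly

/-- the linear polynomial -/
noncomputable def lin (a b : ℤ) : ℤ[X] := C a * X + C b

lemma lin_eval (a b m : ℤ) : (lin a b).eval m = a * m + b := by
  unfold lin
  simp

lemma lin_deg (a b : ℤ) (ha : a ≠ 0) : (lin a b).natDegree = 1 := natDegree_linear ha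

lemma lin_lead (a b : ℤ) (ha : a ≠ 0) : (lin a b).leadingCoeff = a := leadingCoeff_linear ha

lemma lin_prim (a b : ℤ) (hg : ∀ p : ℕ, p.Prime → ¬ ((p : ℤ) ∣ a ∧ (p : ℤ) ∣ b)) :
    (lin a b).IsPrimitive := by
  rw [isPrimitive_iff_isUnit_of_C_dvd]
  intro r hr
  have h := (C_dvd_iff_dvd_coeff r (lin a b)).1 hr
  by_contra hu
  have hne : r.natAbs ≠ 1 := fun h1 => hu (Int.isUnit_iff_natAbs_eq.2 h1)
  obtain ⟨p, hp, hpr⟩ := Nat.exists_prime_and_dvd hne
  have hpr' : (p : ℤ) ∣ r := Int.natCast_dvd.2 hpr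
  have h0 := h 0
  have h1 := h 1
  unfold lin at h0 h1
  simp only [coeff_add, coeff_C_mul, coeff_X, coeff_C] at h0 h1
  norm_num at h0 h1
  exact hg p hp ⟨hpr'.trans h1, hpr'.trans h0⟩

lemma lin_irr (a b : ℤ) (ha : a ≠ 0)
    (hg : ∀ p : ℕ, p.Prime → ¬ ((p : ℤ) ∣ a ∧ (p : ℤ) ∣ b)) : Irreducible (lin a b) := by
  rw [Polynomial.IsPrimitive.Int.irreducible_iff_irreducible_map_cast (lin_prim a b hg)]
  have hmap : (lin a b).map (Int.castRingHom ℚ) = C (a : ℚ) * X + C (b : ℚ) := by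
    unfold lin
    simp
  rw [hmap]
  have ha' : (a : ℚ) ≠ 0 := by exact_mod_cast ha
  exact irreducible_of_degree_eq_one (degree_linear ha')

/-- leading coefficients of the factors `(t - k) / (4 e)` -/
def A0 : Fin 6 → ℤ := ![120, 60, 120, 120, 60, 120]

def B0 (a : Fin 6) (i : ℕ) : ℤ := (1 - kk a i) / (4 * (ee a : ℤ))
def B1 (a : Fin 6) (i : ℕ) : ℤ := (1 + kk a i) / 2
def B2 (a : Fin 6) (i : ℕ) : ℤ := (1 + (kk a i : ℤ) ^ 2) / 2

lemma ee_pos (a : Fin 6) : 0 < ee a := by fin_cases a <;> simp [ee]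

lemma A0_eq (a : Fin 6) : 4 * (ee a : ℤ) * A0 a = 480 := by fin_cases a <;> simp [ee, A0]

lemma A0_pos (a : Fin 6) : 0 < A0 a := by fin_cases a <;> simp [A0]

lemma Bs (a : Fin 6) (i : ℕ) : 4 * (ee a : ℤ) * B0 a i = 1 - kk a i ∧ 2 * B1 a i = 1 + kk a i ∧
    2 * B2 a i = 1 + (kk a i : ℤ) ^ 2 ∧ B0 a i % 2 = 1 ∧ B1 a i % 2 = 1 ∧ B2 a i % 2 = 1 := by
  obtain ⟨b₀, b₁, b₂, h0, h1, h2, h3, h4, h5⟩ := factors a i
  have he : (0 : ℤ) < ee a := by exact_mod_cast ee_pos a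
  have e0 : B0 a i = b₀ := by
    unfold B0
    rw [← h0]
    exact Int.mul_ediv_cancel_left _ (by positivity)
  have e1 : B1 a i = b₁ := by
    unfold B1
    rw [← h1]
    exact Int.mul_ediv_cancel_left _ (by norm_num)
  have e2 : B2 a i = b₂ := by
    unfold B2
    rw [← h2]
    exact Int.mul_ediv_cancel_left _ (by norm_num)
  rw [e0, e1, e2]
  exact ⟨h0, h1, h2, h3, h4, h5⟩

/-- the polynomials -/
noncomputable def ff (r : ℕ) : Fin 6 × Fin (r + 1) × Fin 3 → ℤ[X] := fun x =>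
  ![lin (A0 x.1) (B0 x.1 x.2.1), lin 240 (B1 x.1 x.2.1), quad 115200 480 (B2 x.1 x.2.1)] x.2.2

lemma ff0 (r : ℕ) (a : Fin 6) (i : Fin (r + 1)) : ff r (a, i, 0) = lin (A0 a) (B0 a i) := rfl
lemma ff1 (r : ℕ) (a : Fin 6) (i : Fin (r + 1)) : ff r (a, i, 1) = lin 240 (B1 a i) := rfl
lemma ff2 (r : ℕ) (a : Fin 6) (i : Fin (r + 1)) : ff r (a, i, 2) = quad 115200 480 (B2 a i) := rfl

lemma ev0 (r : ℕ) (a : Fin 6) (i : Fin (r + 1)) (m : ℤ) :
    4 * (ee a : ℤ) * (ff r (a, i, 0)).eval m = (480 * m + 1) - kk a i := by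
  rw [ff0, lin_eval]
  have := A0_eq a
  have := (Bs a i).1
  linear_combination m * A0_eq a + (Bs a i).1

lemma ev1 (r : ℕ) (a : Fin 6) (i : Fin (r + 1)) (m : ℤ) :
    2 * (ff r (a, i, 1)).eval m = (480 * m + 1) + kk a i := by
  rw [ff1, lin_eval]
  linear_combination (Bs a i).2.1

lemma ev2 (r : ℕ) (a : Fin 6) (i : Fin (r + 1)) (m : ℤ) :
    2 * (ff r (a, i, 2)).eval m = (480 * m + 1) ^ 2 + (kk a i : ℤ) ^ 2 := by
  rw [ff2, quad_eval]
  linear_combination (Bs a i).2.2.1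

lemma odd0 (r : ℕ) (a : Fin 6) (i : Fin (r + 1)) (m : ℤ) : (ff r (a, i, 0)).eval m % 2 = 1 := by
  rw [ff0, lin_eval]
  have h := (Bs a i).2.2.2.1
  have h2 : A0 a % 2 = 0 := by fin_cases a <;> simp [A0]
  obtain ⟨c, hc⟩ : ∃ c, A0 a = 2 * c := ⟨A0 a / 2, by omega⟩
  rw [hc, mul_assoc]
  omega

lemma odd1 (r : ℕ) (a : Fin 6) (i : Fin (r + 1)) (m : ℤ) : (ff r (a, i, 1)).eval m % 2 = 1 := by
  rw [ff1, lin_eval]
  have h := (Bs a i).2.2.2.2.1
  omega

lemma odd2 (r : ℕ) (a : Fin 6) (i : Fin (r + 1)) (m : ℤ) : (ff r (a, i, 2)).eval m % 2 = 1 := by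
  rw [ff2, quad_eval]
  have h := (Bs a i).2.2.2.2.2
  have : (115200 : ℤ) * m ^ 2 + 480 * m + B2 a i = 2 * (57600 * m ^ 2 + 240 * m) + B2 a i := by ring
  omega

lemma prime480 (p : ℕ) (hp : p.Prime) (h : p ∣ 480) : p = 2 ∨ p = 3 ∨ p = 5 := by
  have h1 : p ∣ 2 ^ 5 * (3 * 5) := by simpa using h
  rcases hp.dvd_mul.1 h1 with h2 | h2
  · left; exact (Nat.prime_dvd_prime_iff_eq hp Nat.prime_two).1 (hp.dvd_of_dvd_pow h2)
  · rcases hp.dvd_mul.1 h2 with h3 | h3
    · right; left; exact (Nat.prime_dvd_prime_iff_eq hp Nat.prime_three).1 h3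
    · right; right; exact (Nat.prime_dvd_prime_iff_eq hp Nat.prime_five).1 h3

/-- the values at `t` divisible by `3` or `5`: none when `t = 1` modulo `15` -/
lemma small_ndvd (r : ℕ) (x : Fin 6 × Fin (r + 1) × Fin 3) (p : ℕ) (hp : p = 2 ∨ p = 3 ∨ p = 5)
    (m : ℤ) : ¬ (p : ℤ) ∣ (ff r x).eval m := by
  obtain ⟨a, i, y⟩ := x
  rcases hp with rfl | hp
  · intro h
    have h' : (ff r (a, i, y)).eval m % 2 = 0 := Int.emod_eq_zero_of_dvd (by exact_mod_cast h)
    fin_cases y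
    · have h2 := odd0 r a i m
      change (ff r (a, i, 0)).eval m % 2 = 0 at h'
      omega
    · have h2 := odd1 r a i m
      change (ff r (a, i, 1)).eval m % 2 = 0 at h'
      omega
    · have h2 := odd2 r a i m
      change (ff r (a, i, 2)).eval m % 2 = 0 at h'
      omega
  · have hk : (p : ℤ) ∣ kk a i := by
      rcases hp with rfl | rfl
      · exact_mod_cast three_dvd_kk a i
      · exact_mod_cast five_dvd_kk a i
    have h480 : (p : ℤ) ∣ 480 := by
      rcases hp with rfl | rfl <;> norm_num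
    have hp2 : ¬ (p : ℤ) ∣ 1 := by
      rcases hp with rfl | rfl <;> norm_num
    intro h
    apply hp2
    fin_cases y
    · have h1 := ev0 r a i m
      have h2 : (p : ℤ) ∣ (480 * m + 1) - kk a i := by rw [← h1]; exact Dvd.dvd.mul_left h _
      have h3 : (1 : ℤ) = ((480 * m + 1) - kk a i) - 480 * m + kk a i := by ring
      rw [h3]
      exact dvd_add (dvd_sub h2 (Dvd.dvd.mul_right h480 _)) hk
    · have h1 := ev1 r a i m
      have h2 : (p : ℤ) ∣ (480 * m + 1) + kk a i := by rw [← h1]; exact Dvd.dvd.mul_left h _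
      have h3 : (1 : ℤ) = ((480 * m + 1) + kk a i) - 480 * m - kk a i := by ring
      rw [h3]
      exact dvd_sub (dvd_sub h2 (Dvd.dvd.mul_right h480 _)) hk
    · have h1 := ev2 r a i m
      have h2 : (p : ℤ) ∣ (480 * m + 1) ^ 2 + (kk a i : ℤ) ^ 2 := by
        rw [← h1]; exact Dvd.dvd.mul_left h _
      have h3 : (1 : ℤ) = ((480 * m + 1) ^ 2 + (kk a i : ℤ) ^ 2) - 480 * (480 * m ^ 2 + 2 * m)
        - kk a i * kk a i := by ring
      rw [h3]
      exact dvd_sub (dvd_sub h2 (Dvd.dvd.mul_right h480 _)) (Dvd.dvd.mul_right hk _)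

lemma irr_ff (r : ℕ) (x : Fin 6 × Fin (r + 1) × Fin 3) : Irreducible (ff r x) := by
  obtain ⟨a, i, y⟩ := x
  have hs : ∀ (y : Fin 3) (p : ℕ), p = 2 ∨ p = 3 ∨ p = 5 → ¬ (p : ℤ) ∣ (ff r (a, i, y)).eval 0 :=
    fun y p hp => small_ndvd r (a, i, y) p hp 0
  have h480 : ∀ p : ℕ, p.Prime → (p : ℤ) ∣ 480 → p = 2 ∨ p = 3 ∨ p = 5 :=
    fun p hp h => prime480 p hp (by exact_mod_cast h)
  fin_cases y
  · show Irreducible (ff r (a, i, 0))
    rw [ff0]
    apply lin_irr _ _ (A0_pos a).ne'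
    rintro p hp ⟨h1, h2⟩
    have h3 : (p : ℤ) ∣ 480 := by
      rw [← A0_eq a]
      exact Dvd.dvd.mul_left h1 _
    have h4 := hs 0 p (h480 p hp h3)
    rw [ff0, lin_eval, mul_zero, zero_add] at h4
    exact h4 h2
  · show Irreducible (ff r (a, i, 1))
    rw [ff1]
    apply lin_irr _ _ (by norm_num)
    rintro p hp ⟨h1, h2⟩
    have h3 : (p : ℤ) ∣ 480 := h1.trans (by norm_num)
    have h4 := hs 1 p (h480 p hp h3)
    rw [ff1, lin_eval, mul_zero, zero_add] at h4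
    exact h4 h2
  · show Irreducible (ff r (a, i, 2))
    rw [ff2]
    apply quad_irr _ _ _ (by norm_num)
    · rintro p hp ⟨-, h1, h2⟩
      have h4 := hs 2 p (h480 p hp h1)
      rw [ff2, quad_eval] at h4
      simp only [ne_eq, OfNat.ofNat_ne_zero, not_false_eq_true, zero_pow, mul_zero, zero_add] at h4
      exact h4 h2
    · intro h
      have h5 := (Bs a i).2.2.1
      have h6 : (0 : ℤ) < kk a i := by exact_mod_cast kk_pos a i
      have h7 : (480 : ℤ) ^ 2 - 4 * 115200 * B2 a i < 0 := by nlinarith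
      obtain ⟨c, hc⟩ := h
      nlinarith [mul_self_nonneg c]

lemma adm_ff (r : ℕ) (p : ℕ) (hp : p.Prime) : ∃ m : ℕ, ∀ x, ¬ (p : ℤ) ∣ (ff r x).eval (m : ℤ) := by
  by_cases h : p ∣ 480
  · exact ⟨0, fun x => small_ndvd r x p (prime480 p hp h) _⟩
  · have hc : Nat.Coprime 480 p := (Nat.coprime_comm.1 ((Nat.Prime.coprime_iff_not_dvd hp).2 h))
    obtain ⟨m, hm⟩ : ∃ m : ℕ, (p : ℤ) ∣ 480 * m + 1 := by
      obtain ⟨m, -, hm⟩ := Nat.exists_mul_mod_eq_one_of_coprime hc hp.one_lt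
      -- 480 * m ≡ 1, take (p - 1) * m
      refine ⟨(p - 1) * m, ?_⟩
      have h1 : ((480 * m : ℕ) : ℤ) % p = 1 := by exact_mod_cast hm
      have h2 : (p : ℤ) ∣ 480 * m - 1 := by
        have := Int.emod_emod_of_dvd ((480 * m : ℕ) : ℤ) (dvd_refl (p : ℤ))
        apply Int.dvd_of_emod_eq_zero
        have hp1 : (1 : ℤ) % p = 1 := Int.emod_eq_of_lt (by norm_num) (by exact_mod_cast hp.one_lt)
        rw [Int.sub_emod]
        push_cast at h1
        rw [h1, hp1]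
        simp
      have h3 : ((((p - 1) * m : ℕ)) : ℤ) = ((p : ℤ) - 1) * m := by
        rw [Nat.cast_mul, Nat.cast_sub hp.one_lt.le]
        simp
      rw [h3]
      have h4 : (480 : ℤ) * (((p : ℤ) - 1) * m) + 1 = p * (480 * m) - (480 * m - 1) := by ring
      rw [h4]
      exact dvd_sub (dvd_mul_right _ _) h2
    refine ⟨m, ?_⟩
    rintro ⟨a, i, y⟩ hd
    have hk : ¬ (p : ℤ) ∣ kk a i := by
      intro hk
      have hk' : p ∣ kk a i := by exact_mod_cast hk
      rcases prime_dvd_kk a i p hp hk' with rfl | rfl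
      · exact h (by norm_num)
      · exact h (by norm_num)
    have hpi : Prime (p : ℤ) := Nat.prime_iff_prime_int.1 hp
    apply hk
    fin_cases y
    · have h1 := ev0 r a i m
      have h2 : (p : ℤ) ∣ (480 * (m : ℤ) + 1) - kk a i := by rw [← h1]; exact Dvd.dvd.mul_left hd _
      have h3 : (kk a i : ℤ) = (480 * (m : ℤ) + 1) - ((480 * (m : ℤ) + 1) - kk a i) := by ring
      rw [h3]
      exact dvd_sub hm h2
    · have h1 := ev1 r a i m
      have h2 : (p : ℤ) ∣ (480 * (m : ℤ) + 1) + kk a i := by rw [← h1]; exact Dvd.dvd.mul_left hd _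
      have h3 : (kk a i : ℤ) = ((480 * (m : ℤ) + 1) + kk a i) - (480 * (m : ℤ) + 1) := by ring
      rw [h3]
      exact dvd_sub h2 hm
    · have h1 := ev2 r a i m
      have h2 : (p : ℤ) ∣ (480 * (m : ℤ) + 1) ^ 2 + (kk a i : ℤ) ^ 2 := by
        rw [← h1]; exact Dvd.dvd.mul_left hd _
      have h3 : (kk a i : ℤ) ^ 2 = ((480 * (m : ℤ) + 1) ^ 2 + (kk a i : ℤ) ^ 2) -
        (480 * (m : ℤ) + 1) * (480 * (m : ℤ) + 1) := by ring
      have h4 : (p : ℤ) ∣ (kk a i : ℤ) ^ 2 := by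
        rw [h3]
        exact dvd_sub h2 (Dvd.dvd.mul_right hm _)
      exact hpi.dvd_of_dvd_pow h4

lemma inj_ff (r : ℕ) : Function.Injective (ff r) := by
  have ev : ∀ x y, ff r x = ff r y → ∀ m : ℤ, (ff r x).eval m = (ff r y).eval m := by
    intro x y h m; rw [h]
  have kinj : ∀ (a b : Fin 6) (i j : Fin (r + 1)), (kk a i : ℤ) = kk b j → a = b ∧ i = j := by
    intro a b i j h
    have h' : kk a i = kk b j := by exact_mod_cast h
    obtain ⟨h1, h2⟩ := kk_inj a b i j h'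
    exact ⟨h1, Fin.ext h2⟩
  have lead : ∀ x, (ff r x).leadingCoeff = ![A0 x.1, 240, 115200] x.2.2 := by
    rintro ⟨a, i, y⟩
    fin_cases y
    · exact lin_lead _ _ (A0_pos a).ne'
    · exact lin_lead _ _ (by norm_num)
    · exact quad_lead _ _ _ (by norm_num)
  rintro ⟨a, i, y⟩ ⟨b, j, z⟩ h
  have hl : (ff r (a, i, y)).leadingCoeff = (ff r (b, j, z)).leadingCoeff := by rw [h]
  rw [lead, lead] at hl
  have ha : A0 a = 120 ∨ A0 a = 60 := by fin_cases a <;> simp [A0]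
  have hb : A0 b = 120 ∨ A0 b = 60 := by fin_cases b <;> simp [A0]
  have hyz : y = z := by
    fin_cases y <;> fin_cases z <;> simp at hl ⊢ <;> omega
  subst hyz
  have h0 := ev _ _ h 0
  have hkk : (kk a i : ℤ) = kk b j := by
    fin_cases y
    · have e1 := ev0 r a i 0
      have e2 := ev0 r b j 0
      have hA : A0 a = A0 b := by simpa using hl
      have hE : (ee a : ℤ) = ee b := by
        have q1 := A0_eq a
        have q2 := A0_eq b
        rw [hA] at q1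
        rcases hb with hb | hb <;> rw [hb] at q1 q2 <;> omega
      have h0' : (ff r (a, i, 0)).eval 0 = (ff r (b, j, 0)).eval 0 := h0
      rw [h0', hE, e2] at e1
      linarith
    · have e1 := ev1 r a i 0
      have e2 := ev1 r b j 0
      have h0' : (ff r (a, i, 1)).eval 0 = (ff r (b, j, 1)).eval 0 := h0
      rw [h0', e2] at e1
      linarith
    · have e1 := ev2 r a i 0
      have e2 := ev2 r b j 0
      have h0' : (ff r (a, i, 2)).eval 0 = (ff r (b, j, 2)).eval 0 := h0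
      rw [h0', e2] at e1
      have h6 : (0 : ℤ) < kk a i := by exact_mod_cast kk_pos a i
      have h7 : (0 : ℤ) < kk b j := by exact_mod_cast kk_pos b j
      have h8 : (kk a i : ℤ) ^ 2 = (kk b j : ℤ) ^ 2 := by linarith
      exact (pow_left_inj₀ h6.le h7.le (by norm_num)).1 h8
  obtain ⟨h1, h2⟩ := kinj a b i j hkk
  rw [h1, h2]

theorem sys_ff (r : ℕ) : Sys (ff r) := by
  refine ⟨irr_ff r, ?_, ?_, inj_ff r, adm_ff r⟩
  · rintro ⟨a, i, y⟩
    fin_cases y
    · show 0 < (ff r (a, i, 0)).natDegree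
      rw [ff0, lin_deg _ _ (A0_pos a).ne']; norm_num
    · show 0 < (ff r (a, i, 1)).natDegree
      rw [ff1, lin_deg _ _ (by norm_num)]; norm_num
    · show 0 < (ff r (a, i, 2)).natDegree
      rw [ff2, quad_deg _ _ _ (by norm_num)]; norm_num
  · rintro ⟨a, i, y⟩
    fin_cases y
    · show 0 < (ff r (a, i, 0)).leadingCoeff
      rw [ff0, lin_lead _ _ (A0_pos a).ne']; exact A0_pos a
    · show 0 < (ff r (a, i, 1)).leadingCoeff
      rw [ff1, lin_lead _ _ (by norm_num)]; norm_num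
    · show 0 < (ff r (a, i, 2)).leadingCoeff
      rw [ff2, quad_lead _ _ _ (by norm_num)]; norm_num

end Pool.Agent.Y675.CL
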