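import Pool.Agent.Y675.CL.Good
import Pool.Agent.Y675.CL.Cnt

set_option autoImplicit false

/-!
# Almost prime and squarefree values of the system
-/

namespace Pool.Agent.Y675.CL

open Polynomial Pool.Agent.TH464.PW Finset Filter
open Pool.Agent.W123.RP Pool.Agent.H373R2.T7 Pool.Agent.W123.RU Pool.Agent.W123.RU.Poly

/-- bound for all the `kk` -/
def KK (r : ℕ) : ℕ := ∑ x : Fin 6 × Fin (r + 1), kk x.1 x.2

lemma kk_le (r : ℕ) (a : Fin 6) (i : Fin (r + 1)) : kk a i ≤ KK r :=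
  Finset.single_le_sum (f := fun x : Fin 6 × Fin (r + 1) => kk x.1 x.2)
    (fun _ _ => Nat.zero_le _) (mem_univ (a, i))

open Classical in
/-- the bad values -/
lemma bad_one (r S Y z P : ℕ) (hz : 120 ≤ z) (x : Fin 6 × Fin (r + 1) × Fin 3) (hS : KK r ≤ S)
    (hY : Y ≤ S) (hP : (960 * S + KK r + 1 : ℕ) ≤ P ^ 2) :
    (((Ioc S (S + Y)).filter (fun s : ℕ => ∃ p : ℕ, p.Prime ∧ z < p ∧
      (p : ℤ) ^ 2 ∣ (ff r x).eval (s : ℤ))).card : ℝ) ≤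
      2 * (((480 * Y : ℕ) : ℝ) / z + P) + ((5 * (480 * S + 1) ^ 2 / P ^ 2 + 1) * (3 * KK r ^ 2 + 1) : ℕ) := by
  obtain ⟨a, i, y⟩ := x
  have hP0 : 0 < P := by
    rcases Nat.eq_zero_or_pos P with h | h
    · rw [h] at hP; simp at hP
    · exact h
  have hkK := kk_le r a i
  have hk0 := kk_pos a i
  have hz0 : (0 : ℝ) < z := by
    have : 0 < z := by omega
    exact_mod_cast this
  have hextra : (0 : ℝ) ≤ (((5 * (480 * S + 1) ^ 2 / P ^ 2 + 1) * (3 * KK r ^ 2 + 1) : ℕ) : ℝ) :=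
    Nat.cast_nonneg _
  have hlin : (Y : ℝ) / z + P ≤ 2 * (((480 * Y : ℕ) : ℝ) / z + P) := by
    have h1 : (Y : ℝ) / z ≤ ((480 * Y : ℕ) : ℝ) / z := by
      apply div_le_div_of_nonneg_right _ hz0.le
      push_cast
      have : (0 : ℝ) ≤ Y := Nat.cast_nonneg _
      linarith
    have h2 : (0 : ℝ) ≤ (Y : ℝ) / z := by positivity
    have h3 : (0 : ℝ) ≤ P := Nat.cast_nonneg _
    linarith
  have hPZ : (960 * (S : ℤ) + KK r + 1) ≤ (P : ℤ) ^ 2 := by exact_mod_cast hP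
  have hprime : ∀ p : ℕ, p.Prime → z < p → ¬ p ∣ 480 := by
    intro p hp hzp hd
    rcases prime480 p hp hd with h | h | h <;> omega
  fin_cases y
  · have h := bad_linear (A0 a).toNat (B0 a i) S Y z P (by omega) (by
      intro p hp hzp hd
      apply hprime p hp hzp
      have h1 : (p : ℤ) ∣ A0 a := by
        have := Int.natCast_dvd_natCast.2 hd
        rwa [Int.toNat_of_nonneg (A0_pos a).le] at this
      have h2 : (p : ℤ) ∣ 480 := by rw [← A0_eq a]; exact Dvd.dvd.mul_left h1 _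
      exact_mod_cast h2) (by
      intro s h1 h2
      rw [Int.toNat_of_nonneg (A0_pos a).le]
      have e0 := ev0 r a i s
      rw [ff0, lin_eval] at e0
      have he1 : (1 : ℤ) ≤ ee a := by exact_mod_cast ee_pos a
      have he2 : (ee a : ℤ) ≤ 2 := by fin_cases a <;> simp [ee]
      have hs1 : (KK r : ℤ) < s := by
        have : KK r < s := by omega
        exact_mod_cast this
      have hs2 : (s : ℤ) ≤ 2 * S := by
        have : s ≤ 2 * S := by omega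
        exact_mod_cast this
      have hkK' : (kk a i : ℤ) ≤ KK r := by exact_mod_cast hkK
      have hk0' : (0 : ℤ) < kk a i := by exact_mod_cast hk0
      constructor
      · by_contra hcon
        push Not at hcon
        have : 4 * (ee a : ℤ) * (A0 a * s + B0 a i) ≤ 0 :=
          mul_nonpos_of_nonneg_of_nonpos (by positivity) hcon
        linarith
      · by_contra hcon
        push Not at hcon
        have h5 : (960 * (S : ℤ) + KK r + 1) < A0 a * s + B0 a i := lt_of_le_of_lt hPZ hcon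
        have h6 : 4 * (A0 a * (s : ℤ) + B0 a i) ≤ 4 * (ee a : ℤ) * (A0 a * s + B0 a i) := by
          have h7 : (0 : ℤ) ≤ A0 a * s + B0 a i := by
            have : (0 : ℤ) ≤ S := by positivity
            have : (0 : ℤ) ≤ KK r := by positivity
            linarith
          nlinarith
        linarith)
    rw [Int.toNat_of_nonneg (A0_pos a).le] at h
    have heq : (Ioc S (S + Y)).filter (fun s : ℕ => ∃ p : ℕ, p.Prime ∧ z < p ∧
      (p : ℤ) ^ 2 ∣ (ff r (a, i, 0)).eval (s : ℤ)) = (Ioc S (S + Y)).filter (fun s : ℕ => ∃ p : ℕ,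
      p.Prime ∧ z < p ∧ (p : ℤ) ^ 2 ∣ A0 a * (s : ℤ) + B0 a i) := by
      apply filter_congr
      intro s _
      rw [ff0, lin_eval]
    show (((Ioc S (S + Y)).filter (fun s : ℕ => ∃ p : ℕ, p.Prime ∧ z < p ∧
      (p : ℤ) ^ 2 ∣ (ff r (a, i, 0)).eval (s : ℤ))).card : ℝ) ≤ _
    rw [heq]
    linarith
  · have h := bad_linear 240 (B1 a i) S Y z P (by omega) (by
      intro p hp hzp hd
      exact hprime p hp hzp (hd.trans (by norm_num))) (by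
      intro s h1 h2
      have e0 := ev1 r a i s
      rw [ff1, lin_eval] at e0
      have hs2 : (s : ℤ) ≤ 2 * S := by
        have : s ≤ 2 * S := by omega
        exact_mod_cast this
      have hkK' : (kk a i : ℤ) ≤ KK r := by exact_mod_cast hkK
      have hk0' : (0 : ℤ) < kk a i := by exact_mod_cast hk0
      have hs0 : (0 : ℤ) ≤ s := by positivity
      push_cast
      constructor
      · linarith
      · linarith)
    have heq : (Ioc S (S + Y)).filter (fun s : ℕ => ∃ p : ℕ, p.Prime ∧ z < p ∧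
      (p : ℤ) ^ 2 ∣ (ff r (a, i, 1)).eval (s : ℤ)) = (Ioc S (S + Y)).filter (fun s : ℕ => ∃ p : ℕ,
      p.Prime ∧ z < p ∧ (p : ℤ) ^ 2 ∣ ((240 : ℕ) : ℤ) * (s : ℤ) + B1 a i) := by
      apply filter_congr
      intro s _
      rw [ff1, lin_eval]
      push_cast
      rfl
    show (((Ioc S (S + Y)).filter (fun s : ℕ => ∃ p : ℕ, p.Prime ∧ z < p ∧
      (p : ℤ) ^ 2 ∣ (ff r (a, i, 1)).eval (s : ℤ))).card : ℝ) ≤ _
    rw [heq]
    linarith
  · have hkz : ∀ p : ℕ, p.Prime → z < p → ¬ p ∣ kk a i := by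
      intro p hp hzp hd
      rcases prime_dvd_kk a i p hp hd with h | h <;> omega
    have h1 := bad_quad1 (kk a i) (480 * S + 1) (480 * Y) z P (by omega) hkz
    have h2 := bad_quad2 (kk a i) (480 * S + 1) (480 * Y) P hk0 (by omega) (by omega) hP0
    have hcard : ((Ioc S (S + Y)).filter (fun s : ℕ => ∃ p : ℕ, p.Prime ∧ z < p ∧
        (p : ℤ) ^ 2 ∣ (ff r (a, i, 2)).eval (s : ℤ))).card ≤
        ((Ioc (480 * S + 1) (480 * S + 1 + 480 * Y)).filter (fun t : ℕ => ∃ p : ℕ, p.Prime ∧ z < p ∧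
          p ≤ P ∧ p ^ 2 ∣ t ^ 2 + kk a i ^ 2)).card +
        ((Ioc (480 * S + 1) (480 * S + 1 + 480 * Y)).filter (fun t : ℕ => ∃ p : ℕ, p.Prime ∧
          ¬ p ∣ kk a i ∧ P < p ∧ p ^ 2 ∣ t ^ 2 + kk a i ^ 2)).card := by
      refine le_trans ?_ (card_union_le _ _)
      apply card_le_card_of_injOn (fun s => 480 * s + 1)
      · intro s hs
        rw [Finset.mem_coe, mem_filter, mem_Ioc] at hs
        obtain ⟨⟨h3, h4⟩, p, hp, hzp, hd⟩ := hs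
        rw [Finset.mem_coe, mem_union, mem_filter, mem_filter, mem_Ioc]
        have hd2 : p ^ 2 ∣ (480 * s + 1) ^ 2 + kk a i ^ 2 := by
          have h5 : (p : ℤ) ^ 2 ∣ (480 * (s : ℤ) + 1) ^ 2 + (kk a i : ℤ) ^ 2 := by
            rw [← ev2 r a i s]
            exact Dvd.dvd.mul_left hd _
          exact_mod_cast h5
        have hr : 480 * S + 1 < 480 * s + 1 ∧ 480 * s + 1 ≤ 480 * S + 1 + 480 * Y := by omega
        rcases le_or_gt p P with h | h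
        · left; exact ⟨hr, p, hp, hzp, h, hd2⟩
        · right; exact ⟨hr, p, hp, hkz p hp hzp, h, hd2⟩
      · intro s _ s' _ h
        simp only at h
        omega
    have h2' : (((Ioc (480 * S + 1) (480 * S + 1 + 480 * Y)).filter (fun t : ℕ => ∃ p : ℕ, p.Prime ∧
          ¬ p ∣ kk a i ∧ P < p ∧ p ^ 2 ∣ t ^ 2 + kk a i ^ 2)).card : ℝ) ≤
          (((5 * (480 * S + 1) ^ 2 / P ^ 2 + 1) * (3 * KK r ^ 2 + 1) : ℕ) : ℝ) := by
      have : (5 * (480 * S + 1) ^ 2 / P ^ 2 + 1) * (3 * kk a i ^ 2 + 1) ≤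
          (5 * (480 * S + 1) ^ 2 / P ^ 2 + 1) * (3 * KK r ^ 2 + 1) := by gcongr
      exact_mod_cast h2.trans this
    have hcard' : (((Ioc S (S + Y)).filter (fun s : ℕ => ∃ p : ℕ, p.Prime ∧ z < p ∧
        (p : ℤ) ^ 2 ∣ (ff r (a, i, 2)).eval (s : ℤ))).card : ℝ) ≤
        (((Ioc (480 * S + 1) (480 * S + 1 + 480 * Y)).filter (fun t : ℕ => ∃ p : ℕ, p.Prime ∧ z < p ∧
          p ≤ P ∧ p ^ 2 ∣ t ^ 2 + kk a i ^ 2)).card : ℝ) +
        (((Ioc (480 * S + 1) (480 * S + 1 + 480 * Y)).filter (fun t : ℕ => ∃ p : ℕ, p.Prime ∧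
          ¬ p ∣ kk a i ∧ P < p ∧ p ^ 2 ∣ t ^ 2 + kk a i ^ 2)).card : ℝ) := by exact_mod_cast hcard
    show (((Ioc S (S + Y)).filter (fun s : ℕ => ∃ p : ℕ, p.Prime ∧ z < p ∧
      (p : ℤ) ^ 2 ∣ (ff r (a, i, 2)).eval (s : ℤ))).card : ℝ) ≤ _
    linarith

open Classical in
theorem count_good (r : ℕ) (θ : ℝ) (hθ : 2 / 3 < θ) (hθ1 : θ ≤ 1) :
    ∃ (ρ : ℕ) (c : ℝ), 2 ≤ ρ ∧ 0 < c ∧ ∀ᶠ S : ℕ in atTop, ∀ Y : ℕ, (S : ℝ) ^ θ ≤ Y → Y ≤ S →
      c * Y / Real.log S ^ (Fintype.card (Fin 6 × Fin (r + 1) × Fin 3)) ≤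
        (((Ioc S (S + Y)).filter (fun s : ℕ => Almost (ff r) ρ ((S : ℝ) ^ (1 / (ρ : ℝ))) s ∧
          ∀ x, ∀ p : ℕ, p.Prime → ¬ (p : ℤ) ^ 2 ∣ (ff r x).eval (s : ℤ))).card : ℝ) := by
  obtain ⟨ρ, C1, C2, cS, hρ, -, -, hcS, hin⟩ := input (ff r) (sys_ff r) θ (by linarith) hθ1
  refine ⟨ρ, cS / 2, hρ, by positivity, ?_⟩
  obtain ⟨n, hn⟩ : ∃ n, n = Fintype.card (Fin 6 × Fin (r + 1) × Fin 3) := ⟨_, rfl⟩
  rw [← hn] at hin ⊢
  obtain ⟨M1, hM1⟩ : ∃ M1 : ℝ, M1 = n * 1920 + 1 := ⟨_, rfl⟩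
  obtain ⟨M2, hM2⟩ : ∃ M2 : ℝ, M2 = n * (4 + 1156806 * (3 * (KK r : ℝ) ^ 2 + 1)) + 1 := ⟨_, rfl⟩
  have hM1p : 0 < M1 := by rw [hM1]; positivity
  have hM2p : 0 < M2 := by rw [hM2]; positivity
  have hρ0 : (0 : ℝ) < 1 / ρ := by
    have : (0 : ℝ) < ρ := by exact_mod_cast (by omega : 0 < ρ)
    positivity
  have E1 := logpow_rpow n (4 * M1 / cS) (1 / ρ) (by positivity) hρ0
  have E2 := logpow_rpow n (4 * M2 / cS) (θ - 2 / 3) (by positivity) (by linarith)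
  have E3 : ∀ᶠ S : ℕ in atTop, (121 : ℝ) ≤ (S : ℝ) ^ (1 / (ρ : ℝ)) :=
    ((tendsto_rpow_atTop hρ0).comp tendsto_natCast_atTop_atTop).eventually_ge_atTop 121
  have E4 : ∀ᶠ S : ℕ in atTop, ((961 + KK r : ℕ) : ℝ) ≤ (S : ℝ) ^ (1 / 3 : ℝ) :=
    ((tendsto_rpow_atTop (by norm_num : (0 : ℝ) < 1 / 3)).comp
      tendsto_natCast_atTop_atTop).eventually_ge_atTop _
  filter_upwards [hin 1 one_pos, E1, E2, E3, E4, eventually_ge_atTop (KK r + 1)] with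
    S hS e1 e2 e3 e4 e5 Y hY hYS
  obtain ⟨hL2, -, -, -, hA⟩ := hS Y hY hYS
  obtain ⟨L, hL⟩ : ∃ L, L = Real.log S ^ n := ⟨_, rfl⟩
  rw [← hL] at hL2 hA e1 e2 ⊢
  have hL0 : 0 < L := by linarith
  have hS1 : (1 : ℝ) ≤ S := by exact_mod_cast (by omega : 1 ≤ S)
  have hS0 : (0 : ℝ) < S := by linarith
  obtain ⟨z, hz⟩ : ∃ z : ℕ, z = ⌊(S : ℝ) ^ (1 / (ρ : ℝ))⌋₊ := ⟨_, rfl⟩
  obtain ⟨P, hP⟩ : ∃ P : ℕ, P = ⌊(S : ℝ) ^ (2 / 3 : ℝ)⌋₊ + 1 := ⟨_, rfl⟩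
  obtain ⟨Z, hZ⟩ : ∃ Z : ℝ, Z = (S : ℝ) ^ (1 / (ρ : ℝ)) := ⟨_, rfl⟩
  obtain ⟨Q, hQ⟩ : ∃ Q : ℝ, Q = (S : ℝ) ^ (2 / 3 : ℝ) := ⟨_, rfl⟩
  have hQ1 : 1 ≤ Q := by rw [hQ]; exact Real.one_le_rpow hS1 (by norm_num)
  have hz1 : (z : ℝ) ≤ Z := by rw [hz, hZ]; exact Nat.floor_le (by positivity)
  have hz2 : Z < z + 1 := by rw [hz, hZ]; exact Nat.lt_floor_add_one _
  have hZ121 : 121 ≤ Z := by rw [hZ]; exact e3
  have hz120 : 120 ≤ z := by
    have : (119 : ℝ) < z := by linarith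
    have : 119 < z := by exact_mod_cast this
    omega
  have hP1 : Q ≤ P := by
    rw [hP, hQ]; push_cast
    exact (Nat.lt_floor_add_one _).le
  have hP2 : (P : ℝ) ≤ 2 * Q := by
    rw [hP]; push_cast
    have : (⌊(S : ℝ) ^ (2 / 3 : ℝ)⌋₊ : ℝ) ≤ Q := by rw [hQ]; exact Nat.floor_le (by positivity)
    linarith
  have hQ3 : Q ^ 2 = S * (S : ℝ) ^ (1 / 3 : ℝ) := by
    rw [hQ, ← Real.rpow_natCast, ← Real.rpow_mul hS0.le]
    nth_rewrite 2 [← Real.rpow_one (S : ℝ)]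
    rw [← Real.rpow_add hS0]
    norm_num
  have hQ4 : Q * Q ^ 2 = (S : ℝ) ^ 2 := by
    rw [hQ3, hQ, ← Real.rpow_natCast (S : ℝ) 2]
    have : (S : ℝ) * (S : ℝ) ^ (1 / 3 : ℝ) = (S : ℝ) ^ (4 / 3 : ℝ) := by
      nth_rewrite 1 [← Real.rpow_one (S : ℝ)]
      rw [← Real.rpow_add hS0]
      norm_num
    rw [this, ← Real.rpow_add hS0]
    norm_num
  have hPsq : (960 * S + KK r + 1 : ℕ) ≤ P ^ 2 := by
    have h1 : ((960 * S + KK r + 1 : ℕ) : ℝ) ≤ (P : ℝ) ^ 2 := by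
      have h2 : Q ^ 2 ≤ (P : ℝ) ^ 2 := by gcongr
      refine le_trans ?_ h2
      rw [hQ3]
      have h3 : (S : ℝ) * ((961 + KK r : ℕ) : ℝ) ≤ S * (S : ℝ) ^ (1 / 3 : ℝ) := by gcongr
      refine le_trans ?_ h3
      push_cast
      have h4 : (0 : ℝ) ≤ KK r := Nat.cast_nonneg _
      nlinarith
    exact_mod_cast h1
  have hdiv : ((5 * (480 * S + 1) ^ 2 / P ^ 2 + 1 : ℕ) : ℝ) ≤ 1156806 * Q := by
    push_cast
    have h1 : ((5 * (480 * S + 1) ^ 2 / P ^ 2 : ℕ) : ℝ) ≤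
        ((5 * (480 * S + 1) ^ 2 : ℕ) : ℝ) / ((P ^ 2 : ℕ) : ℝ) := Nat.cast_div_le
    have h2 : ((5 * (480 * S + 1) ^ 2 : ℕ) : ℝ) / ((P ^ 2 : ℕ) : ℝ) ≤ 1156805 * Q := by
      have hPpos : (0 : ℝ) < ((P ^ 2 : ℕ) : ℝ) := by
        have : 0 < P := by omega
        positivity
      rw [div_le_iff₀ hPpos]
      push_cast
      have h3 : (480 * (S : ℝ) + 1) ^ 2 ≤ (481 * S) ^ 2 := by
        have : 480 * (S : ℝ) + 1 ≤ 481 * S := by linarith
        gcongr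
      have h4 : (S : ℝ) ^ 2 ≤ Q * (P : ℝ) ^ 2 := by
        rw [← hQ4]
        gcongr
      nlinarith
    linarith
  -- the bad set
  obtain ⟨Al, hAl⟩ : ∃ Al, Al = (Ioc S (S + Y)).filter (fun s : ℕ => Almost (ff r) ρ Z s) := ⟨_, rfl⟩
  obtain ⟨Gd, hGd⟩ : ∃ Gd, Gd = (Ioc S (S + Y)).filter (fun s : ℕ => Almost (ff r) ρ Z s ∧
          ∀ x, ∀ p : ℕ, p.Prime → ¬ (p : ℤ) ^ 2 ∣ (ff r x).eval (s : ℤ)) := ⟨_, rfl⟩
  rw [← hZ, ← hGd]
  have hAlc : cS * Y / L ≤ (Al.card : ℝ) := by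
    refine hA.trans ?_
    have h1 : co (Alm (ff r) ρ S Y) Y (2 * Y) ≤ Al.card := by
      unfold co
      apply card_le_card_of_injOn (fun m => m + (S - Y))
      · intro m hm
        rw [Finset.mem_coe, mem_filter, mem_Ioc] at hm
        rw [Finset.mem_coe, hAl, mem_filter, mem_Ioc]
        have hr1 : S < m + (S - Y) ∧ m + (S - Y) ≤ S + Y := by omega
        refine ⟨hr1, ?_⟩
        have := hm.2
        unfold Alm at this
        rw [← hZ] at this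
        exact this
      · intro m _ m' _ h
        simp only at h
        omega
    exact_mod_cast h1
  have hsub : Al \ Gd ⊆ univ.biUnion (fun x : Fin 6 × Fin (r + 1) × Fin 3 =>
      (Ioc S (S + Y)).filter (fun s : ℕ => ∃ p : ℕ, p.Prime ∧ z < p ∧
      (p : ℤ) ^ 2 ∣ (ff r x).eval (s : ℤ))) := by
    intro s hs
    rw [Finset.mem_sdiff, hAl, hGd, mem_filter, mem_filter] at hs
    obtain ⟨⟨h1, h2⟩, h3⟩ := hs
    have h4 : ∃ x, ∃ p : ℕ, p.Prime ∧ (p : ℤ) ^ 2 ∣ (ff r x).eval (s : ℤ) := by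
      by_contra hcon
      push Not at hcon
      exact h3 ⟨h1, h2, hcon⟩
    obtain ⟨x, p, hp, hd⟩ := h4
    rw [mem_biUnion]
    refine ⟨x, mem_univ _, ?_⟩
    rw [mem_filter]
    refine ⟨h1, p, hp, ?_, hd⟩
    have h5 : (p : ℤ) ∣ (ff r x).eval (s : ℤ) := (dvd_pow_self _ (by norm_num)).trans hd
    have h6 := (h2 x).2 p hp h5
    have h7 : (z : ℝ) < p := lt_of_le_of_lt hz1 h6
    exact_mod_cast h7
  have hbad : ((Al \ Gd).card : ℝ) ≤ n * (2 * (((480 * Y : ℕ) : ℝ) / z + P) +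
      ((5 * (480 * S + 1) ^ 2 / P ^ 2 + 1) * (3 * KK r ^ 2 + 1) : ℕ)) := by
    have h1 := (card_le_card hsub).trans card_biUnion_le
    have h2 : ((Al \ Gd).card : ℝ) ≤ ∑ x : Fin 6 × Fin (r + 1) × Fin 3,
      (((Ioc S (S + Y)).filter (fun s : ℕ => ∃ p : ℕ, p.Prime ∧ z < p ∧
      (p : ℤ) ^ 2 ∣ (ff r x).eval (s : ℤ))).card : ℝ) := by
      rw [← Nat.cast_sum]
      exact_mod_cast h1
    refine h2.trans ((sum_le_sum (fun x _ => bad_one r S Y z P hz120 x (by omega) hYS hPsq)).trans ?_)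
    rw [sum_const, card_univ, ← hn, nsmul_eq_mul]
  have hY0 : (0 : ℝ) ≤ Y := Nat.cast_nonneg _
  have hzpos : (0 : ℝ) < z := by
    have : 0 < z := by omega
    exact_mod_cast this
  have hzZ : Z / 2 ≤ z := by linarith
  have hbad2 : ((Al \ Gd).card : ℝ) ≤ M1 * Y / Z + M2 * Q := by
    refine hbad.trans ?_
    have h1 : ((480 * Y : ℕ) : ℝ) / z ≤ 960 * Y / Z := by
      rw [div_le_div_iff₀ hzpos (by linarith)]
      push_cast
      nlinarith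
    have h2 : (((5 * (480 * S + 1) ^ 2 / P ^ 2 + 1) * (3 * KK r ^ 2 + 1) : ℕ) : ℝ) ≤
        1156806 * Q * (3 * (KK r : ℝ) ^ 2 + 1) := by
      rw [Nat.cast_mul]
      have h3 : ((3 * KK r ^ 2 + 1 : ℕ) : ℝ) = 3 * (KK r : ℝ) ^ 2 + 1 := by push_cast; ring
      rw [h3]
      exact mul_le_mul_of_nonneg_right hdiv (by positivity)
    have h3 : (n : ℝ) * (2 * (((480 * Y : ℕ) : ℝ) / z + P) +
      ((5 * (480 * S + 1) ^ 2 / P ^ 2 + 1) * (3 * KK r ^ 2 + 1) : ℕ)) ≤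
      n * (2 * (960 * Y / Z + 2 * Q) + 1156806 * Q * (3 * (KK r : ℝ) ^ 2 + 1)) := by
      gcongr
    refine h3.trans ?_
    have h4 : (0 : ℝ) ≤ Y / Z := div_nonneg hY0 (by linarith)
    have h5 : 960 * (Y : ℝ) / Z = 960 * (Y / Z) := by ring
    have h6 : M1 * (Y : ℝ) / Z = M1 * (Y / Z) := by ring
    rw [h5, h6, hM1, hM2]
    nlinarith
  have hb1 : M1 * Y / Z ≤ cS / 4 * Y / L := by
    rw [div_le_div_iff₀ (by linarith) hL0]
    have h1 : 4 * M1 / cS * L ≤ Z := by rw [hZ]; exact e1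
    have h2 : 4 * M1 * L ≤ Z * cS := by
      rw [div_mul_eq_mul_div, div_le_iff₀ hcS] at h1
      exact h1
    nlinarith
  have hb2 : M2 * Q ≤ cS / 4 * Y / L := by
    rw [le_div_iff₀ hL0]
    have h1 : 4 * M2 / cS * L ≤ (S : ℝ) ^ (θ - 2 / 3) := e2
    have h2 : 4 * M2 * L ≤ (S : ℝ) ^ (θ - 2 / 3) * cS := by
      rw [div_mul_eq_mul_div, div_le_iff₀ hcS] at h1
      exact h1
    have h3 : (S : ℝ) ^ (θ - 2 / 3) * Q = (S : ℝ) ^ θ := by
      rw [hQ, ← Real.rpow_add hS0]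
      congr 1
      ring
    have h4 : (S : ℝ) ^ (θ - 2 / 3) * cS * Q ≤ cS * Y := by
      calc (S : ℝ) ^ (θ - 2 / 3) * cS * Q = cS * ((S : ℝ) ^ (θ - 2 / 3) * Q) := by ring
        _ ≤ cS * Y := by rw [h3]; gcongr
    have h5 : 4 * M2 * L * Q ≤ (S : ℝ) ^ (θ - 2 / 3) * cS * Q := by gcongr
    nlinarith
  have hcard : (Al.card : ℝ) ≤ Gd.card + ((Al \ Gd).card : ℝ) := by
    have h := Finset.card_le_card_sdiff_add_card (s := Al) (t := Gd)
    have h' : (Al.card : ℝ) ≤ ((Al \ Gd).card : ℝ) + Gd.card := by exact_mod_cast h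
    linarith
  have e1 : cS * Y / L = cS / 2 * Y / L + cS / 4 * Y / L + cS / 4 * Y / L := by ring
  linarith

end Pool.Agent.Y675.CL
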